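import Mathlib

/-!
# Fields which are large over their small subfields
-/

namespace Pool.Agent.TH137.PG

open Cardinal

universe u v

/-- `F` is not algebraic over any subfield generated by fewer than `#F` elements. -/
def Big (F : Type u) [Field F] : Prop :=
  ∀ s : Set F, #s < #F → ∃ t : F, Transcendental (Subfield.closure s) t

variable {F : Type u} [Field F]

theorem transcendental_of_le {k : Type*} [Field k] [Algebra k F] (A : Subalgebra k F)
    (K : Subfield F) (h : ∀ x ∈ A, x ∈ K) {t : F} (ht : Transcendental K t) :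
    Transcendental A t := by
  rintro ⟨p, hp, hpt⟩
  let f : A →+* K :=
    { toFun := fun x => ⟨x.1, h x.1 x.2⟩
      map_one' := rfl
      map_mul' := fun _ _ => rfl
      map_zero' := rfl
      map_add' := fun _ _ => rfl }
  have hf : Function.Injective f := fun x y hxy => Subtype.ext (congrArg (fun z : K => z.1) hxy)
  apply ht
  refine ⟨p.map f, (Polynomial.map_ne_zero_iff hf).2 hp, ?_⟩
  rw [Polynomial.aeval_def, Polynomial.eval₂_map]
  rw [Polynomial.aeval_def] at hpt
  exact hpt

theorem Big.infinite (hF : Big F) : Infinite F := by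
  by_contra h
  rw [not_infinite_iff_finite] at h
  obtain ⟨t, ht⟩ := hF ∅ (by rw [Cardinal.mk_eq_zero]; exact (mk_ne_zero F).bot_lt)
  exact ht (Algebra.IsAlgebraic.isAlgebraic t)

theorem Big.exists_algInd (hF : Big F) (σ : Type v) [Finite σ] :
    ∀ s : Set F, #s < #F → ∃ ξ : σ → F, AlgebraicIndependent (Subfield.closure s) ξ := by
  have := hF.infinite
  induction σ using Finite.induction_empty_option with
  | of_equiv e h =>
    intro s hs
    obtain ⟨ξ, hξ⟩ := h s hs
    exact ⟨ξ ∘ e.symm, hξ.comp _ e.symm.injective⟩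
  | h_empty =>
    intro s _
    refine ⟨PEmpty.elim, ?_⟩
    rw [algebraicIndependent_empty_type_iff]
    exact FaithfulSMul.algebraMap_injective _ _
  | h_option h =>
    intro s hs
    obtain ⟨ξ, hξ⟩ := h s hs
    have hcard : #(s ∪ Set.range ξ : Set F) < #F := by
      refine (mk_union_le _ _).trans_lt (add_lt_of_lt (aleph0_le_mk F) hs ?_)
      exact (Set.finite_range ξ).lt_aleph0.trans_le (aleph0_le_mk F)
    obtain ⟨t, ht⟩ := hF _ hcard
    refine ⟨fun o => o.elim t ξ, ?_⟩
    rw [hξ.option_iff_transcendental]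
    refine transcendental_of_le _ _ ?_ ht
    intro x hx
    induction hx using Algebra.adjoin_induction with
    | mem x hx => exact Subfield.subset_closure (Or.inr hx)
    | algebraMap r => exact Subfield.closure_mono Set.subset_union_left r.2
    | add x y _ _ hx hy => exact add_mem hx hy
    | mul x y _ _ hx hy => exact mul_mem hx hy

theorem exists_val (k : Subfield F) (t : F) (ht : Transcendental k t) :
    ∃ O : ValuationSubring F, (∀ x ∈ k, x ∈ O) ∧ t ∈ O.nonunits := by
  let A := (Algebra.adjoin k {t}).toSubring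
  have htA : t ∈ A := Algebra.subset_adjoin rfl
  have hI : Ideal.span {(⟨t, htA⟩ : A)} ≠ ⊤ := by
    intro htop
    rw [Ideal.eq_top_iff_one, Ideal.mem_span_singleton'] at htop
    obtain ⟨⟨a, ha⟩, h⟩ := htop
    have h' : a * t = 1 := congrArg Subtype.val h
    have ha' : a ∈ Algebra.adjoin k {t} := ha
    rw [Algebra.adjoin_singleton_eq_range_aeval] at ha'
    obtain ⟨p, hp⟩ := ha'
    have hz : Polynomial.aeval t (p * Polynomial.X - 1) = 0 := by
      rw [map_sub, map_mul, Polynomial.aeval_X, map_one]
      change Polynomial.aeval t p = a at hp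
      rw [hp, h', sub_self]
    have hne : p * Polynomial.X - 1 ≠ (0 : Polynomial k) := by
      intro h0
      have := congrArg (Polynomial.eval 0) h0
      simp at this
    exact ht ⟨_, hne, hz⟩
  obtain ⟨O, hO, hsub⟩ := Ideal.image_subset_nonunits_valuationSubring
    (Ideal.span {(⟨t, htA⟩ : A)}) hI
  refine ⟨O, fun x hx => hO ?_, hsub ⟨⟨t, htA⟩, Ideal.subset_span rfl, rfl⟩⟩
  exact (Algebra.adjoin k {t}).algebraMap_mem ⟨x, hx⟩

theorem big_of_uncountable (hF : ℵ₀ < #F) : Big F := by
  intro s hs
  by_contra hcon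
  push Not at hcon
  have halg : Algebra.IsAlgebraic (Subfield.closure s) F :=
    ⟨fun t => by
      have := hcon t
      rwa [Transcendental, not_not] at this⟩
  have h1 := Algebra.IsAlgebraic.cardinalMk_le_max (Subfield.closure s) F
  have h2 := Subfield.cardinalMk_closure_le_max s
  have h3 : #F ≤ max (max #s ℵ₀) ℵ₀ := h1.trans (max_le_max h2 le_rfl)
  have h4 : max (max #s ℵ₀) ℵ₀ < #F := max_lt (max_lt hs hF) hF
  exact absurd h3 (not_le.2 h4)

theorem big_of_fg (h : ∀ s : Finset F, ∃ t : F, Transcendental (Subfield.closure (s : Set F)) t) :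
    Big F := by
  rcases lt_or_ge ℵ₀ #F with hF | hF
  · exact big_of_uncountable hF
  · intro s hs
    have hfin : s.Finite := by
      rw [← Cardinal.lt_aleph0_iff_set_finite]
      exact hs.trans_le hF
    obtain ⟨t, ht⟩ := h hfin.toFinset
    rw [hfin.coe_toFinset] at ht
    exact ⟨t, ht⟩

end Pool.Agent.TH137.PG
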