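import Mathlib

/-!
# Rank of cyclically non-degenerate products

A matrix `W = D_1 M_1 ⋯ D_k M_k` over a valuation ring, where each `D_i` is one of two fixed
diagonal matrices which reduce to projections of rank `r`, and the matrices `M_i` have non-singular
transition blocks.  If the size is at least `3r` then `W - c` has rank at least `2r` for all `c`.
-/

namespace Pool.Agent.TH137.PG

open Matrix

section defs

variable {I : Type*} [Fintype I] [DecidableEq I] {r : ℕ} (e : Bool → Fin r → I)

open Classical in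
/-- diagonal entries: 1 on the block σ, t² on the other block, t elsewhere -/
noncomputable def dd {R : Type*} [CommRing R] (t : R) (σ : Bool) (i : I) : R :=
  if i ∈ Set.range (e σ) then 1 else if i ∈ Set.range (e !σ) then t ^ 2 else t

/-- the diagonal matrix -/
noncomputable def Dm {R : Type*} [CommRing R] (t : R) (σ : Bool) : Matrix I I R :=
  Matrix.diagonal (dd e t σ)

/-- product of a list -/
noncomputable def Wm {R : Type*} [CommRing R] (t : R) : List (Bool × GL I R) → Matrix I I R
  | [] => 1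
  | x :: l => Dm e t x.1 * (x.2 : Matrix I I R) * Wm t l

/-- the reversed product -/
noncomputable def Vm {R : Type*} [CommRing R] (t : R) : List (Bool × GL I R) → Matrix I I R
  | [] => 1
  | x :: l => Vm t l * ((x.2⁻¹ : GL I R) : Matrix I I R) * Dm e t (!x.1)

/-- non-degenerate transition -/
def Tr {R : Type*} [CommRing R] (x y : Bool × GL I R) : Prop :=
  IsUnit ((x.2 : Matrix I I R).submatrix (e x.1) (e y.1)).det ∧
    IsUnit (((x.2⁻¹ : GL I R) : Matrix I I R).submatrix (e !y.1) (e !x.1)).det

theorem Dm_mul {R : Type*} [CommRing R] (he : Function.Injective fun x : Bool × Fin r => e x.1 x.2)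
    (t : R) (σ : Bool) : Dm e t σ * Dm e t (!σ) = t ^ 2 • (1 : Matrix I I R) := by
  classical
  rw [Dm, Dm, Matrix.diagonal_mul_diagonal, ← Matrix.diagonal_one, ← Matrix.diagonal_smul]
  congr 1
  funext i
  have hdis : ∀ σ : Bool, i ∈ Set.range (e σ) → i ∉ Set.range (e !σ) := by
    rintro σ ⟨a, rfl⟩ ⟨b, hb⟩
    have := he (a₁ := (!σ, b)) (a₂ := (σ, a)) hb
    simp at this
  simp only [dd, Bool.not_not, Pi.smul_apply, smul_eq_mul, mul_one]
  by_cases h1 : i ∈ Set.range (e σ)
  · rw [if_pos h1, if_neg (hdis _ h1), if_pos h1, one_mul]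
  · by_cases h2 : i ∈ Set.range (e !σ)
    · rw [if_neg h1, if_pos h2, if_pos h2, mul_one]
    · rw [if_neg h1, if_neg h2, if_neg h2, if_neg h1, sq]

theorem Wm_mul_Vm {R : Type*} [CommRing R]
    (he : Function.Injective fun x : Bool × Fin r => e x.1 x.2) (t : R)
    (l : List (Bool × GL I R)) :
    Wm e t l * Vm e t l = (t ^ 2) ^ l.length • (1 : Matrix I I R) := by
  induction l with
  | nil => simp [Wm, Vm]
  | cons x l ih =>
    rw [Wm, Vm, List.length_cons]
    calc Dm e t x.1 * (x.2 : Matrix I I R) * Wm e t l *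
          (Vm e t l * ((x.2⁻¹ : GL I R) : Matrix I I R) * Dm e t (!x.1))
        = Dm e t x.1 * (x.2 : Matrix I I R) * (Wm e t l * Vm e t l) *
          ((x.2⁻¹ : GL I R) : Matrix I I R) * Dm e t (!x.1) := by simp only [mul_assoc]
      _ = (t ^ 2) ^ l.length • (Dm e t x.1 * ((x.2 : Matrix I I R) *
          ((x.2⁻¹ : GL I R) : Matrix I I R)) * Dm e t (!x.1)) := by
          rw [ih]; simp only [mul_assoc, mul_smul_comm, smul_mul_assoc, mul_one]
      _ = (t ^ 2) ^ (l.length + 1) • (1 : Matrix I I R) := by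
          rw [← Units.val_mul, mul_inv_cancel, Units.val_one, mul_one, Dm_mul e he, smul_smul,
            pow_succ (t ^ 2)]

theorem Vm_mul_Wm {R : Type*} [CommRing R]
    (he : Function.Injective fun x : Bool × Fin r => e x.1 x.2) (t : R)
    (l : List (Bool × GL I R)) :
    Vm e t l * Wm e t l = (t ^ 2) ^ l.length • (1 : Matrix I I R) := by
  induction l with
  | nil => simp [Wm, Vm]
  | cons x l ih =>
    rw [Wm, Vm, List.length_cons]
    calc Vm e t l * ((x.2⁻¹ : GL I R) : Matrix I I R) * Dm e t (!x.1) *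
          (Dm e t x.1 * (x.2 : Matrix I I R) * Wm e t l)
        = Vm e t l * ((x.2⁻¹ : GL I R) : Matrix I I R) * (Dm e t (!x.1) *
          Dm e t (! !x.1)) * (x.2 : Matrix I I R) * Wm e t l := by
          rw [Bool.not_not]; simp only [mul_assoc]
      _ = t ^ 2 • (Vm e t l * (((x.2⁻¹ : GL I R) : Matrix I I R) * (x.2 : Matrix I I R)) *
          Wm e t l) := by
          rw [Dm_mul e he]; simp only [mul_assoc, mul_smul_comm, smul_mul_assoc, one_mul]
      _ = (t ^ 2) ^ (l.length + 1) • (1 : Matrix I I R) := by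
          rw [← Units.val_mul, inv_mul_cancel, Units.val_one, mul_one, ih, smul_smul,
            pow_succ' (t ^ 2)]

end defs

section reduced

/-! The reduced situation: `t = 0` over a field. -/

variable {I : Type*} [Fintype I] [DecidableEq I] {r : ℕ} (e : Bool → Fin r → I)
variable {κ : Type*} [Field κ]

/-- supported on the block σ -/
def Supp (σ : Bool) (u : I → κ) : Prop := ∀ i, i ∉ Set.range (e σ) → u i = 0

theorem Dm_zero_apply (σ : Bool) (u : I → κ) (i : I) :
    (Dm e (0 : κ) σ *ᵥ u) i = if i ∈ Set.range (e σ) then u i else 0 := by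
  classical
  rw [Dm, Matrix.mulVec_diagonal, dd]
  by_cases h : i ∈ Set.range (e σ)
  · simp [h]
  · simp [h]

theorem supp_Dm (σ : Bool) (u : I → κ) : Supp e σ (Dm e (0 : κ) σ *ᵥ u) := by
  intro i hi
  rw [Dm_zero_apply, if_neg hi]

theorem sub_inj {σ τ : Bool} (M : Matrix I I κ)
    (he : Function.Injective fun x : Bool × Fin r => e x.1 x.2)
    (hM : IsUnit (M.submatrix (e σ) (e τ)).det) {u : I → κ} (hu : Supp e τ u)
    (h : Dm e (0 : κ) σ *ᵥ (M *ᵥ u) = 0) : u = 0 := by
  classical
  have hinj : Function.Injective (e τ) := fun a b hab => by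
    have := he (a₁ := (τ, a)) (a₂ := (τ, b)) hab
    simpa using this
  have key : (M.submatrix (e σ) (e τ)) *ᵥ (u ∘ e τ) = 0 := by
    funext a
    have h1 := congrFun h (e σ a)
    rw [Dm_zero_apply, if_pos ⟨a, rfl⟩, Pi.zero_apply] at h1
    rw [Pi.zero_apply, ← h1]
    simp only [Matrix.mulVec, dotProduct, Matrix.submatrix_apply, Function.comp_apply]
    rw [← Finset.sum_subset (Finset.subset_univ (Finset.univ.image (e τ)))]
    · rw [Finset.sum_image (fun a _ b _ hab => hinj hab)]
    · intro i _ hi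
      rw [hu i, mul_zero]
      rintro ⟨a, rfl⟩
      exact hi (Finset.mem_image_of_mem _ (Finset.mem_univ _))
  have h0 : u ∘ e τ = 0 := by
    have := Matrix.mulVec_injective_iff_isUnit.2 ((Matrix.isUnit_iff_isUnit_det _).2 hM)
    apply this
    rw [key, Matrix.mulVec_zero]
  funext i
  by_cases hi : i ∈ Set.range (e τ)
  · obtain ⟨a, rfl⟩ := hi
    exact congrFun h0 a
  · exact hu i hi

theorem Wm_supp (x : Bool × GL I κ) (l : List (Bool × GL I κ)) (u : I → κ) :
    Supp e x.1 (Wm e (0 : κ) (x :: l) *ᵥ u) := by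
  rw [Wm, mul_assoc, ← Matrix.mulVec_mulVec]
  exact supp_Dm _ _ _

theorem Wm_ker (he : Function.Injective fun x : Bool × Fin r => e x.1 x.2) :
    ∀ (l : List (Bool × GL I κ)) (hl : l ≠ []) (_ : l.IsChain (Tr e)) (u : I → κ)
      (_ : Wm e (0 : κ) l *ᵥ u = 0),
      Dm e (0 : κ) (l.getLast hl).1 *ᵥ (((l.getLast hl).2 : Matrix I I κ) *ᵥ u) = 0 := by
  intro l
  induction l with
  | nil => intro hl; exact absurd rfl hl
  | cons x l ih =>
    intro _ hch u hu
    cases l with
    | nil =>
      simpa [Wm, Matrix.mulVec_mulVec] using hu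
    | cons y l =>
      rw [List.isChain_cons_cons] at hch
      rw [List.getLast_cons (List.cons_ne_nil y l)]
      apply ih _ hch.2
      have h1 : Dm e (0 : κ) x.1 *ᵥ ((x.2 : Matrix I I κ) *ᵥ (Wm e (0 : κ) (y :: l) *ᵥ u)) = 0 := by
        rw [Wm] at hu
        rw [← hu]
        simp only [Matrix.mulVec_mulVec, mul_assoc]
      exact sub_inj e _ he hch.1.1 (Wm_supp e y l u) h1

theorem Vm_ker (he : Function.Injective fun x : Bool × Fin r => e x.1 x.2) :
    ∀ (l : List (Bool × GL I κ)) (x : Bool × GL I κ) (_ : (x :: l).IsChain (Tr e)) (u : I → κ)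
      (_ : Vm e (0 : κ) (x :: l) *ᵥ u = 0), Dm e (0 : κ) (!x.1) *ᵥ u = 0 := by
  intro l
  induction l with
  | nil =>
    intro x _ u hu
    rw [Vm, Vm, one_mul, ← Matrix.mulVec_mulVec] at hu
    have := congrArg (fun v => (x.2 : Matrix I I κ) *ᵥ v) hu
    simp only [Matrix.mulVec_mulVec, Matrix.mulVec_zero] at this
    rwa [← mul_assoc, ← Units.val_mul, mul_inv_cancel, Units.val_one, one_mul] at this
  | cons y l ih =>
    intro x hch u hu
    rw [List.isChain_cons_cons] at hch
    have h1 := ih y hch.2 (((x.2⁻¹ : GL I κ) : Matrix I I κ) *ᵥ (Dm e (0 : κ) (!x.1) *ᵥ u)) (by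
      rw [Vm] at hu
      rw [← hu]
      simp only [Matrix.mulVec_mulVec, mul_assoc])
    exact sub_inj e _ he hch.1.2 (supp_Dm e _ _) h1

theorem Vm_image : ∀ (l : List (Bool × GL I κ)) (hl : l ≠ []) (u : I → κ),
    ∃ w : I → κ, Vm e (0 : κ) l *ᵥ u =
      (((l.getLast hl).2⁻¹ : GL I κ) : Matrix I I κ) *ᵥ
        (Dm e (0 : κ) (!(l.getLast hl).1) *ᵥ w) := by
  intro l
  induction l with
  | nil => intro hl; exact absurd rfl hl
  | cons x l ih =>
    intro _ u
    cases l with
    | nil =>
      refine ⟨u, ?_⟩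
      simp [Vm, Matrix.mulVec_mulVec]
    | cons y l =>
      rw [List.getLast_cons (List.cons_ne_nil y l)]
      obtain ⟨w, hw⟩ := ih (List.cons_ne_nil y l)
        (((x.2⁻¹ : GL I κ) : Matrix I I κ) *ᵥ (Dm e (0 : κ) (!x.1) *ᵥ u))
      refine ⟨w, ?_⟩
      rw [← hw, Vm]
      simp only [Matrix.mulVec_mulVec, mul_assoc]

end reduced

section maps

variable {I : Type*} [Fintype I] [DecidableEq I] {r : ℕ} (e : Bool → Fin r → I)
variable {R S : Type*} [CommRing R] [CommRing S] (f : R →+* S)

/-- map a list of matrices -/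
def mapL (l : List (Bool × GL I R)) : List (Bool × GL I S) :=
  l.map fun x => (x.1, Matrix.GeneralLinearGroup.map f x.2)

omit [Fintype I] in
theorem map_dd (t : R) (σ : Bool) (i : I) : f (dd e t σ i) = dd e (f t) σ i := by
  classical
  simp only [dd]
  split_ifs
  · exact map_one f
  · exact map_pow f t 2
  · rfl

omit [Fintype I] in
theorem map_Dm (t : R) (σ : Bool) : (Dm e t σ).map f = Dm e (f t) σ := by
  rw [Dm, Dm, Matrix.diagonal_map (map_zero f)]
  congr 1
  funext i
  exact map_dd e f t σ i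

theorem map_GL (M : GL I R) :
    (M : Matrix I I R).map f = (Matrix.GeneralLinearGroup.map f M : Matrix I I S) := rfl

theorem map_GL_inv (M : GL I R) : ((M⁻¹ : GL I R) : Matrix I I R).map f =
    (((Matrix.GeneralLinearGroup.map f M)⁻¹ : GL I S) : Matrix I I S) := by
  rw [← map_inv]; rfl

theorem map_Wm (t : R) (l : List (Bool × GL I R)) :
    (Wm e t l).map f = Wm e (f t) (mapL f l) := by
  induction l with
  | nil => simp [Wm, mapL]
  | cons x l ih =>
    rw [Wm, Matrix.map_mul, Matrix.map_mul, map_Dm, ih]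
    rfl

theorem map_Vm (t : R) (l : List (Bool × GL I R)) :
    (Vm e t l).map f = Vm e (f t) (mapL f l) := by
  induction l with
  | nil => simp [Vm, mapL]
  | cons x l ih =>
    rw [Vm, Matrix.map_mul, Matrix.map_mul, map_Dm, ih, map_GL_inv]
    rfl

theorem isUnit_det_map {n : Type*} [Fintype n] [DecidableEq n] {M : Matrix n n R}
    (h : IsUnit M.det) : IsUnit (M.map f).det := by
  have : (M.map f).det = f M.det := (RingHom.map_det f M).symm
  rw [this]
  exact h.map f

theorem Tr.map {x y : Bool × GL I R} (h : Tr e x y) :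
    Tr e (x.1, Matrix.GeneralLinearGroup.map f x.2) (y.1, Matrix.GeneralLinearGroup.map f y.2) := by
  constructor
  · exact isUnit_det_map f h.1
  · have := isUnit_det_map f h.2
    change IsUnit ((((Matrix.GeneralLinearGroup.map f x.2)⁻¹ : GL I S) : Matrix I I S).submatrix
      (e !y.1) (e !x.1)).det
    rw [← map_GL_inv]
    exact this

theorem chain_map {l : List (Bool × GL I R)} (h : l.IsChain (Tr e)) :
    (mapL f l).IsChain (Tr e) := by
  rw [mapL, List.isChain_map]
  exact h.imp fun x y hxy => hxy.map e f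

end maps

section valuation

variable {F : Type*} [Field F] (O : ValuationSubring F)

/-- every nonzero vector is proportional to a primitive one -/
theorem exists_primitive {I : Type*} [Fintype I] (v : I → F) (hv : v ≠ 0) :
    ∃ c : F, c ≠ 0 ∧ ∃ v' : I → O, (∀ i, (v' i : F) = c * v i) ∧ ∃ j, v' j = 1 := by
  classical
  obtain ⟨i0, hi0⟩ : ∃ i, v i ≠ 0 := by
    by_contra h
    push Not at h
    exact hv (funext h)
  obtain ⟨j, _, hj⟩ := Finset.exists_max_image Finset.univ (fun i => O.valuation (v i))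
    ⟨i0, Finset.mem_univ _⟩
  have hj0 : v j ≠ 0 := by
    intro h0
    have := hj i0 (Finset.mem_univ _)
    rw [h0, map_zero, le_zero_iff, map_eq_zero] at this
    exact hi0 this
  have hmem : ∀ i, (v j)⁻¹ * v i ∈ O := by
    intro i
    rw [← O.valuation_le_one_iff, map_mul, map_inv₀]
    have h1 := hj i (Finset.mem_univ _)
    have h2 : O.valuation (v j) ≠ 0 := (map_ne_zero _).2 hj0
    rw [inv_mul_le_iff₀ (zero_lt_iff.2 h2), mul_one]
    exact h1
  refine ⟨(v j)⁻¹, inv_ne_zero hj0, fun i => ⟨_, hmem i⟩, fun i => rfl, j, ?_⟩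
  apply Subtype.ext
  exact inv_mul_cancel₀ hj0

variable {I : Type*} [Fintype I] [DecidableEq I] {r : ℕ} (e : Bool → Fin r → I)

open IsLocalRing

theorem core (he : Function.Injective fun x : Bool × Fin r => e x.1 x.2)
    (hI : 3 * r ≤ Fintype.card I) (t : O) (ht0 : t ≠ 0) (ht : t ∈ maximalIdeal O)
    (x : Bool × GL I O) (l : List (Bool × GL I O)) (hch : (x :: l).IsChain (Tr e))
    (hcyc : Tr e ((x :: l).getLast (List.cons_ne_nil x l)) x) (c : F) :
    2 * r ≤ ((Wm e t (x :: l)).map (algebraMap O F) - c • (1 : Matrix I I F)).rank := by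
  classical
  set L := x :: l with hL
  set last := L.getLast (List.cons_ne_nil x l) with hlast
  set A : Matrix I I F := (Wm e t L).map (algebraMap O F) with hA
  set B : Matrix I I F := (Vm e t L).map (algebraMap O F) with hB
  set T : F := ((t : F) ^ 2) ^ L.length with hT
  have ht0' : (t : F) ≠ 0 := fun h => ht0 (Subtype.ext h)
  have hT0 : T ≠ 0 := pow_ne_zero _ (pow_ne_zero _ ht0')
  have hBA : B * A = T • (1 : Matrix I I F) := by
    rw [hA, hB, ← Matrix.map_mul, Vm_mul_Wm e he]
    ext i j
    simp [hT, Matrix.one_apply, apply_ite (algebraMap O F)]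
  by_contra hlt
  push Not at hlt
  set N := LinearMap.ker (A - c • (1 : Matrix I I F)).mulVecLin with hN
  have hNrank : Module.finrank F N + 2 * r ≥ Fintype.card I + 1 := by
    have h1 := LinearMap.finrank_range_add_finrank_ker (A - c • (1 : Matrix I I F)).mulVecLin
    rw [Module.finrank_fintype_fun_eq_card] at h1
    have h2 : Module.finrank F (LinearMap.range (A - c • (1 : Matrix I I F)).mulVecLin) < 2 * r :=
      hlt
    rw [hN]
    omega
  have hNmem : ∀ v ∈ N, A *ᵥ v = c • v := by
    intro v hv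
    rw [hN, LinearMap.mem_ker, Matrix.mulVecLin_apply, Matrix.sub_mulVec, Matrix.smul_mulVec,
      Matrix.one_mulVec, sub_eq_zero] at hv
    exact hv
  -- nonzero vectors in `N` killed by few functionals
  have hfind : ∀ (J : Type) [Fintype J] (f : (I → F) →ₗ[F] (J → F)),
      Fintype.card J < Module.finrank F N → ∃ v ∈ N, v ≠ 0 ∧ f v = 0 := by
    intro J _ f hJ
    have : LinearMap.ker (f.domRestrict N) ≠ ⊥ := by
      apply LinearMap.ker_ne_bot_of_finrank_lt
      rw [Module.finrank_fintype_fun_eq_card]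
      exact hJ
    rw [Submodule.ne_bot_iff] at this
    obtain ⟨v, hv, hv0⟩ := this
    exact ⟨v, v.2, fun h => hv0 (Subtype.ext h), hv⟩
  have hc0 : c ≠ 0 := by
    rintro rfl
    obtain ⟨v, hv, hv0, -⟩ := hfind (Fin 0) 0 (by rw [Fintype.card_fin]; omega)
    apply hv0
    have h1 := hNmem v hv
    rw [zero_smul] at h1
    have h2 := congrArg (fun w => B *ᵥ w) h1
    simp only [Matrix.mulVec_mulVec, hBA, Matrix.smul_mulVec, Matrix.one_mulVec,
      Matrix.mulVec_zero] at h2
    exact (smul_eq_zero.1 h2).resolve_left hT0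
  have hNmem' : ∀ v ∈ N, B *ᵥ v = (T / c) • v := by
    intro v hv
    have h1 := hNmem v hv
    have h2 := congrArg (fun w => B *ᵥ w) h1
    simp only [Matrix.mulVec_mulVec, hBA, Matrix.smul_mulVec, Matrix.one_mulVec,
      Matrix.mulVec_smul] at h2
    rw [div_eq_inv_mul, mul_smul, h2, smul_smul, inv_mul_cancel₀ hc0, one_smul]
  let res := residue O
  have hrest : res t = 0 := (residue_eq_zero_iff t).2 ht
  -- passing to the reduction
  have hcoe : ∀ (M : Matrix I I O) (v' : I → O) (i : I),
      (((M *ᵥ v') i : O) : F) = ((M.map (algebraMap O F)) *ᵥ fun j => (v' j : F)) i := by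
    intro M v' i
    simp only [Matrix.mulVec, dotProduct, Matrix.map_apply]
    push_cast
    rfl
  have hres : ∀ (M : Matrix I I O) (v' : I → O) (i : I),
      res ((M *ᵥ v') i) = ((M.map res) *ᵥ fun j => res (v' j)) i := by
    intro M v' i
    simp only [Matrix.mulVec, dotProduct, Matrix.map_apply, map_sum, map_mul]
  have hAred : (Wm e t L).map res = Wm e (0 : ResidueField O) (mapL res L) := by
    rw [map_Wm, hrest]
  have hBred : (Vm e t L).map res = Vm e (0 : ResidueField O) (mapL res L) := by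
    rw [map_Vm, hrest]
  have hLne : mapL res L ≠ [] := by simp [mapL, hL]
  have hlastred : (mapL res L).getLast hLne =
      (last.1, Matrix.GeneralLinearGroup.map res last.2) := by
    simp only [mapL, hlast]
    exact List.getLast_map ..
  have hchred := chain_map e res hch
  have hcycred := hcyc.map e res
  -- vectors in N, scaled
  have hscale : ∀ v ∈ N, v ≠ 0 → ∃ v' : I → O, (fun i => (v' i : F)) ∈ N ∧ (∃ j, v' j = 1) ∧
      ∃ s : F, ∀ i, (v' i : F) = s * v i := by
    intro v hv hv0
    obtain ⟨s, hs, v', hv', hj⟩ := exists_primitive O v hv0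
    refine ⟨v', ?_, hj, s, hv'⟩
    have : (fun i => (v' i : F)) = s • v := by
      funext i; rw [hv' i]; rfl
    rw [this]
    exact N.smul_mem _ hv
  -- step 1
  have step1 : c⁻¹ ∉ O := by
    intro hcO
    obtain ⟨v, hv, hv0, hvz⟩ := hfind (Fin r) (LinearMap.funLeft F F (e x.1))
      (by rw [Fintype.card_fin]; omega)
    obtain ⟨v', hv'N, ⟨j, hj⟩, s, hs⟩ := hscale v hv hv0
    have hz : ∀ a, v' (e x.1 a) = 0 := by
      intro a
      apply Subtype.ext
      rw [hs]
      have := congrFun hvz a
      rw [LinearMap.funLeft_apply, Pi.zero_apply] at this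
      rw [this, mul_zero]; rfl
    have heq : ∀ i, (⟨c⁻¹, hcO⟩ : O) * (Wm e t L *ᵥ v') i = v' i := by
      intro i
      apply Subtype.ext
      push_cast
      rw [hcoe, ← hA, hNmem _ hv'N, Pi.smul_apply, smul_eq_mul, ← mul_assoc, inv_mul_cancel₀ hc0,
        one_mul]
    have hall : ∀ i, res (v' i) = 0 := by
      intro i
      by_cases hi : i ∈ Set.range (e x.1)
      · obtain ⟨a, rfl⟩ := hi
        rw [hz a, map_zero]
      · rw [← heq i, map_mul, hres, hAred]
        have := Wm_supp e (x.1, Matrix.GeneralLinearGroup.map res x.2) (mapL res l)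
          (fun j => res (v' j)) i hi
        have e1 : mapL res L = (x.1, Matrix.GeneralLinearGroup.map res x.2) :: mapL res l := rfl
        rw [e1, this, mul_zero]
    have := hall j
    rw [hj, map_one] at this
    exact one_ne_zero this
  -- step 2
  have hm0 : T / c ≠ 0 := div_ne_zero hT0 hc0
  have step2 : (T / c)⁻¹ ∉ O := by
    intro hcO
    obtain ⟨v, hv, hv0, hvz⟩ := hfind (Fin r) ((LinearMap.funLeft F F (e !last.1)) ∘ₗ
      ((Matrix.GeneralLinearGroup.map (algebraMap O F) last.2 : Matrix I I F).mulVecLin))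
      (by rw [Fintype.card_fin]; omega)
    obtain ⟨v', hv'N, ⟨j, hj⟩, s, hs⟩ := hscale v hv hv0
    have hz : ∀ a, ((last.2 : Matrix I I O) *ᵥ v') (e (!last.1) a) = 0 := by
      intro a
      apply Subtype.ext
      rw [hcoe]
      have h1 : (fun i => (v' i : F)) = s • v := by
        funext i; rw [hs i]; rfl
      rw [h1, Matrix.mulVec_smul, Pi.smul_apply]
      have := congrFun hvz a
      rw [LinearMap.comp_apply, LinearMap.funLeft_apply, Pi.zero_apply,
        Matrix.mulVecLin_apply] at this
      rw [← map_GL] at this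
      rw [this, smul_zero]; rfl
    have heq : ∀ i, (⟨(T / c)⁻¹, hcO⟩ : O) * (Vm e t L *ᵥ v') i = v' i := by
      intro i
      apply Subtype.ext
      push_cast
      rw [hcoe, ← hB, hNmem' _ hv'N, Pi.smul_apply, smul_eq_mul, ← mul_assoc, inv_mul_cancel₀ hm0,
        one_mul]
    obtain ⟨w, hw⟩ := Vm_image e (mapL res L) hLne (fun j => res (v' j))
    rw [hlastred] at hw
    have hvbar : (fun i => res (v' i)) = res ⟨(T / c)⁻¹, hcO⟩ •
        (Vm e (0 : ResidueField O) (mapL res L) *ᵥ fun j => res (v' j)) := by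
      funext i
      rw [← heq i, map_mul, hres, hBred]; rfl
    have hMv : (Matrix.GeneralLinearGroup.map res last.2 : Matrix I I (ResidueField O)) *ᵥ
        (fun i => res (v' i)) = res ⟨(T / c)⁻¹, hcO⟩ •
          (Dm e (0 : ResidueField O) (!last.1) *ᵥ w) := by
      rw [hvbar, Matrix.mulVec_smul, hw]
      congr 1
      rw [Matrix.mulVec_mulVec, ← Units.val_mul, mul_inv_cancel, Units.val_one, Matrix.one_mulVec]
    have hMv0 : (Matrix.GeneralLinearGroup.map res last.2 : Matrix I I (ResidueField O)) *ᵥ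
        (fun i => res (v' i)) = 0 := by
      funext i
      by_cases hi : i ∈ Set.range (e !last.1)
      · obtain ⟨a, rfl⟩ := hi
        rw [← map_GL, ← hres, hz a, map_zero]; rfl
      · rw [hMv, Pi.smul_apply, Dm_zero_apply, if_neg hi, smul_zero]; rfl
    have hv0' : (fun i => res (v' i)) = 0 := by
      have := congrArg (fun v => ((Matrix.GeneralLinearGroup.map res last.2)⁻¹ :
        GL I (ResidueField O)).1 *ᵥ v) hMv0
      simp only [Matrix.mulVec_mulVec, Matrix.mulVec_zero] at this
      rwa [← Units.val_mul, inv_mul_cancel, Units.val_one, Matrix.one_mulVec] at this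
    have := congrFun hv0' j
    simp only [hj, map_one, Pi.zero_apply] at this
    exact one_ne_zero this
  -- step 3
  have hcO : c ∈ O := (O.mem_or_inv_mem c).resolve_right step1
  have hmO : T / c ∈ O := (O.mem_or_inv_mem _).resolve_right step2
  have hnonunit : ∀ (a : F) (ha : a ∈ O) (_ : a ≠ 0) (_ : a⁻¹ ∉ O), res ⟨a, ha⟩ = 0 := by
    intro a ha ha0 ha'
    rw [residue_eq_zero_iff, mem_maximalIdeal, mem_nonunits_iff]
    intro hu
    obtain ⟨b, hb⟩ := isUnit_iff_exists_inv.1 hu
    apply ha'
    have : a⁻¹ = (b : F) := by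
      have h1 := congrArg Subtype.val hb
      change a * (b : F) = 1 at h1
      exact inv_eq_of_mul_eq_one_right h1
    rw [this]
    exact b.2
  have hcres := hnonunit c hcO hc0 step1
  have hmres := hnonunit _ hmO hm0 step2
  obtain ⟨v, hv, hv0, hvz⟩ : ∃ v ∈ N, v ≠ 0 ∧
      ∀ i, i ∉ Set.range (fun x : Bool × Fin r => e x.1 x.2) → v i = 0 := by
    have hcard : Fintype.card {i // i ∉ Set.range (fun x : Bool × Fin r => e x.1 x.2)} + 2 * r =
        Fintype.card I := by
      rw [Fintype.card_subtype_compl]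
      have h1 : Fintype.card {i // i ∈ Set.range (fun x : Bool × Fin r => e x.1 x.2)} = 2 * r :=
        (Fintype.card_congr (Equiv.ofInjective _ he).symm).trans (by simp)
      rw [h1]
      have : 2 * r ≤ Fintype.card I := by omega
      omega
    have hker : LinearMap.ker ((LinearMap.funLeft F F
        (Subtype.val : {i // i ∉ Set.range (fun x : Bool × Fin r => e x.1 x.2)} → I)).domRestrict N)
        ≠ ⊥ := by
      apply LinearMap.ker_ne_bot_of_finrank_lt
      rw [Module.finrank_fintype_fun_eq_card]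
      omega
    rw [Submodule.ne_bot_iff] at hker
    obtain ⟨v, hv, hv0⟩ := hker
    refine ⟨v, v.2, fun h => hv0 (Subtype.ext h), fun i hi => ?_⟩
    exact congrFun hv ⟨i, hi⟩
  obtain ⟨v', hv'N, ⟨j, hj⟩, s, hs⟩ := hscale v hv hv0
  have hout : ∀ i, i ∉ Set.range (fun x : Bool × Fin r => e x.1 x.2) → v' i = 0 := by
    intro i hi
    apply Subtype.ext
    rw [hs, hvz i hi, mul_zero]; rfl
  have heqA : ∀ i, (Wm e t L *ᵥ v') i = (⟨c, hcO⟩ : O) * v' i := by
    intro i
    apply Subtype.ext
    rw [hcoe, ← hA, hNmem _ hv'N]; rfl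
  have heqB : ∀ i, (Vm e t L *ᵥ v') i = (⟨T / c, hmO⟩ : O) * v' i := by
    intro i
    apply Subtype.ext
    rw [hcoe, ← hB, hNmem' _ hv'N]; rfl
  have hWz : Wm e (0 : ResidueField O) (mapL res L) *ᵥ (fun j => res (v' j)) = 0 := by
    funext i
    rw [← hAred, ← hres, heqA, map_mul, hcres, zero_mul]; rfl
  have hVz : Vm e (0 : ResidueField O) (mapL res L) *ᵥ (fun j => res (v' j)) = 0 := by
    funext i
    rw [← hBred, ← hres, heqB, map_mul, hmres, zero_mul]; rfl
  have h1 := Wm_ker e he (mapL res L) hLne hchred _ hWz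
  rw [hlastred] at h1
  have h2 := Vm_ker e he (mapL res l) (x.1, Matrix.GeneralLinearGroup.map res x.2) hchred _ hVz
  have hsupp : Supp e x.1 (fun j => res (v' j)) := by
    intro i hi
    by_cases hi' : i ∈ Set.range (e !x.1)
    · have := congrFun h2 i
      rw [Dm_zero_apply, if_pos hi'] at this
      exact this
    · have hi'' : i ∉ Set.range (fun x : Bool × Fin r => e x.1 x.2) := by
        rintro ⟨⟨τ, a⟩, rfl⟩
        rcases Bool.eq_or_eq_not τ x.1 with h | h
        · exact hi ⟨a, by rw [← h]⟩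
        · exact hi' ⟨a, by rw [← h]⟩
      change res (v' i) = 0
      rw [hout i hi'', map_zero]
  have h3 := sub_inj e _ he hcycred.1 hsupp h1
  have := congrFun h3 j
  simp only [hj, map_one, Pi.zero_apply] at this
  exact one_ne_zero this

end valuation

end Pool.Agent.TH137.PG
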