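import Pool.Agent.TH137.PG.Pencil

/-!
# Generic conjugation

Existence of one matrix, and hence of a generic matrix, conjugating by which makes prescribed
blocks of given matrices non-singular.
-/

namespace Pool.Agent.TH137.PG

open Matrix Module

variable {F : Type*} [Field F] {I : Type*} [Fintype I] [DecidableEq I]

/-- a linearly independent family can be prescribed as a set of columns of an invertible matrix -/
theorem exists_cols {J : Type*} [Fintype J] (f : J → I) (hf : Function.Injective f)
    (v : J → (I → F)) (hv : LinearIndependent F v) :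
    ∃ h : GL I F, ∀ x k, (h : Matrix I I F) k (f x) = v x k := by
  classical
  obtain ⟨S', hS'⟩ := Submodule.exists_isCompl (Submodule.span F (Set.range v))
  have h1 := Submodule.finrank_add_eq_of_isCompl hS'
  rw [finrank_span_eq_card hv, finrank_fintype_fun_eq_card] at h1
  have h2 : Fintype.card {i // i ∉ Set.range f} + Fintype.card J = Fintype.card I := by
    have h3 : Fintype.card {i // i ∈ Set.range f} = Fintype.card J :=
      Fintype.card_congr (Equiv.ofInjective f hf).symm
    have h4 := Fintype.card_subtype_compl (fun i => i ∈ Set.range f)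
    have h5 : Fintype.card {i // i ∈ Set.range f} ≤ Fintype.card I := Fintype.card_subtype_le _
    omega
  have h3 : finrank F S' = Fintype.card {i // i ∉ Set.range f} := by omega
  let b : Basis {i // i ∉ Set.range f} F S' :=
    (finBasisOfFinrankEq F S' h3).reindex (Fintype.equivFin _).symm
  have hb : LinearIndependent F (fun x => (b x : I → F)) :=
    b.linearIndependent.map' S'.subtype S'.ker_subtype
  have hli : LinearIndependent F (Sum.elim v (fun x => (b x : I → F))) := by
    apply hv.sum_type hb
    refine hS'.disjoint.mono_right ?_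
    rw [Submodule.span_le]
    rintro _ ⟨x, rfl⟩
    exact (b x).2
  let E : I ≃ J ⊕ {i // i ∉ Set.range f} :=
    (Equiv.Set.sumCompl (Set.range f)).symm.trans
      (Equiv.sumCongr (Equiv.ofInjective f hf).symm (Equiv.refl _))
  have hE : ∀ x, E (f x) = Sum.inl x := by
    intro x
    simp only [E, Equiv.trans_apply]
    rw [Equiv.Set.sumCompl_symm_apply_of_mem (Set.mem_range_self x)]
    simp [Equiv.ofInjective_symm_apply]
  let M : Matrix I I F := fun k i => Sum.elim v (fun x => (b x : I → F)) (E i) k
  have hM : IsUnit M := by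
    rw [← Matrix.linearIndependent_cols_iff_isUnit]
    exact hli.comp E E.injective
  refine ⟨hM.unit, fun x k => ?_⟩
  rw [IsUnit.unit_spec]
  simp only [M, hE, Sum.elim_inl]

section blocks

variable {r : ℕ} (b : Option Bool → Fin r → I)

theorem finrank_ker_funLeft (hb : Function.Injective fun x : Option Bool × Fin r => b x.1 x.2) :
    finrank F (LinearMap.ker (LinearMap.funLeft F F
      (Subtype.val : {i // i ∉ Set.range (b none)} → I))) ≤ r := by
  classical
  have hinj : Function.Injective (b none) := fun x y hxy => by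
    have := hb (a₁ := (none, x)) (a₂ := (none, y)) hxy
    simpa using this
  have h1 := LinearMap.finrank_range_add_finrank_ker (LinearMap.funLeft F F
      (Subtype.val : {i // i ∉ Set.range (b none)} → I))
  rw [LinearMap.range_eq_top.2 (LinearMap.funLeft_surjective_of_injective F F _
    Subtype.val_injective), finrank_top, finrank_fintype_fun_eq_card,
    finrank_fintype_fun_eq_card] at h1
  have h3 : Fintype.card {i // i ∈ Set.range (b none)} = r :=
    (Fintype.card_congr (Equiv.ofInjective _ hinj).symm).trans (by simp)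
  have h4 := Fintype.card_subtype_compl (fun i => i ∈ Set.range (b none))
  have h5 : Fintype.card {i // i ∈ Set.range (b none)} ≤ Fintype.card I := Fintype.card_subtype_le _
  omega

/-- standard on the block `none` -/
def Std {R : Type*} [CommRing R] (h : Matrix I I R) : Prop :=
  ∀ i k, h k (b none i) = (1 : Matrix I I R) k (b none i)

theorem exists_h_opp [Infinite F] (hb : Function.Injective fun x : Option Bool × Fin r => b x.1 x.2)
    (hI : 3 * r ≤ Fintype.card I) (m : Matrix I I F)
    (hm : ∀ c : F, 2 * r ≤ (m - c • (1 : Matrix I I F)).rank) (σ : Bool) :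
    ∃ h : GL I F, Std b (h : Matrix I I F) ∧
      IsUnit ((((h⁻¹ : GL I F) : Matrix I I F) * m * (h : Matrix I I F)).submatrix
        (b (some σ)) (b (some !σ))).det := by
  classical
  let P : (I → F) →ₗ[F] ({i // i ∉ Set.range (b none)} → F) := LinearMap.funLeft F F Subtype.val
  have hPsurj : Function.Surjective P :=
    LinearMap.funLeft_surjective_of_injective F F _ Subtype.val_injective
  have hker : finrank F (LinearMap.ker P) ≤ r := finrank_ker_funLeft b hb
  have hP : ∀ i, P (Pi.single (b none i) 1) = 0 := by
    intro i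
    funext k
    simp only [P, LinearMap.funLeft_apply, Pi.zero_apply]
    rw [Pi.single_apply, if_neg]
    intro h
    exact k.2 ⟨i, h.symm⟩
  obtain ⟨u, hu⟩ := pencil r _ P (P ∘ₗ m.mulVecLin) hPsurj
    (by
      rw [finrank_fintype_fun_eq_card]
      have h1 := LinearMap.finrank_range_add_finrank_ker P
      rw [LinearMap.range_eq_top.2 hPsurj, finrank_top, finrank_fintype_fun_eq_card,
        finrank_fintype_fun_eq_card] at h1
      omega)
    (fun c => by
      have e1 : P ∘ₗ m.mulVecLin - c • P = P ∘ₗ (m - c • (1 : Matrix I I F)).mulVecLin := by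
        ext x
        simp
      rw [e1, LinearMap.range_comp]
      have h1 := finrank_le_map P (LinearMap.range (m - c • (1 : Matrix I I F)).mulVecLin)
      have h2 : 2 * r ≤ finrank F (LinearMap.range (m - c • (1 : Matrix I I F)).mulVecLin) := hm c
      have h3 : finrank F (LinearMap.range (m - c • (1 : Matrix I I F)).mulVecLin ⊓
          LinearMap.ker P : Submodule F (I → F)) ≤ finrank F (LinearMap.ker P) :=
        Submodule.finrank_mono inf_le_right
      omega)
  let v : Option Bool × Fin r → (I → F) := fun x =>
    match x.1 with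
    | none => Pi.single (b none x.2) 1
    | some τ => if τ = σ then m *ᵥ u x.2 else u x.2
  have hv : LinearIndependent F v := by
    rw [Fintype.linearIndependent_iff] at hu ⊢
    intro g hg
    rw [Fintype.sum_prod_type, Fintype.sum_option] at hg
    have hsplit : ∑ τ : Bool, ∑ i : Fin r, g (some τ, i) • v (some τ, i) =
        ∑ i, g (some σ, i) • (m *ᵥ u i) + ∑ i, g (some !σ, i) • u i := by
      have : (Finset.univ : Finset Bool) = {σ, !σ} := by
        ext τ; cases τ <;> cases σ <;> simp
      rw [this, Finset.sum_pair (by cases σ <;> simp)]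
      congr 1
      · simp only [v, if_pos]
      · refine Finset.sum_congr rfl fun i _ => ?_
        simp only [v]
        rw [if_neg (by cases σ <;> simp)]
    rw [hsplit] at hg
    have hPg := congrArg P hg
    rw [map_add, map_add, map_zero, map_sum, map_sum, map_sum] at hPg
    have hz : ∑ i : Fin r, P (g (none, i) • v (none, i)) = 0 := by
      refine Finset.sum_eq_zero fun i _ => ?_
      rw [map_smul]
      change _ • P (Pi.single (b none i) 1) = 0
      rw [hP, smul_zero]
    rw [hz, zero_add] at hPg
    have key := hu (Sum.elim (fun i => g (some !σ, i)) (fun i => g (some σ, i))) (by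
      rw [Fintype.sum_sum_type]
      simp only [Sum.elim_inl, Sum.elim_inr, Function.comp_apply, LinearMap.comp_apply,
        Matrix.mulVecLin_apply]
      rw [add_comm]
      simpa only [map_smul] using hPg)
    have k1 : ∀ i, g (some !σ, i) = 0 := fun i => key (Sum.inl i)
    have k2 : ∀ i, g (some σ, i) = 0 := fun i => key (Sum.inr i)
    simp only [k1, k2, zero_smul, Finset.sum_const_zero, add_zero] at hg
    have k3 : ∀ i, g (none, i) = 0 := by
      intro i
      have h1 := congrFun hg (b none i)
      simp only [Finset.sum_apply, Pi.smul_apply, smul_eq_mul, Pi.zero_apply] at h1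
      rw [Finset.sum_eq_single i] at h1
      · simpa [v] using h1
      · intro k _ hk
        have : b none k ≠ b none i := fun h => hk (by
          have := hb (a₁ := (none, k)) (a₂ := (none, i)) h
          simpa using this)
        simp only [v]
        rw [Pi.single_apply, if_neg this.symm, mul_zero]
      · intro h; exact absurd (Finset.mem_univ _) h
    rintro ⟨o, i⟩
    rcases o with _ | τ
    · exact k3 i
    · rcases Bool.eq_or_eq_not τ σ with h | h
      · rw [h]; exact k2 i
      · rw [h]; exact k1 i
  obtain ⟨h, hh⟩ := exists_cols (fun x : Option Bool × Fin r => b x.1 x.2) hb v hv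
  refine ⟨h, ?_, ?_⟩
  · intro i k
    have := hh (none, i) k
    simp only at this
    rw [this]
    simp only [v]
    rw [Pi.single_apply, Matrix.one_apply]
  · have hcol : ∀ i, (h : Matrix I I F) *ᵥ Pi.single (b (some σ) i) 1 = m *ᵥ u i := by
      intro i
      funext k
      rw [Matrix.mulVec_single_one]
      change (h : Matrix I I F) k (b (some σ) i) = _
      have := hh (some σ, i) k
      simp only at this
      rw [this]
      simp [v]
    have hcol' : ∀ i, (h : Matrix I I F) *ᵥ Pi.single (b (some !σ) i) 1 = u i := by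
      intro i
      funext k
      rw [Matrix.mulVec_single_one]
      change (h : Matrix I I F) k (b (some !σ) i) = _
      have := hh (some !σ, i) k
      simp only at this
      rw [this]
      simp [v]
    have hone : (((h⁻¹ : GL I F) : Matrix I I F) * m * (h : Matrix I I F)).submatrix
        (b (some σ)) (b (some !σ)) = 1 := by
      ext i j
      rw [Matrix.submatrix_apply]
      have e1 : (((h⁻¹ : GL I F) : Matrix I I F) * m * (h : Matrix I I F)) (b (some σ) i)
          (b (some !σ) j) = ((((h⁻¹ : GL I F) : Matrix I I F) * m * (h : Matrix I I F)) *ᵥ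
            Pi.single (b (some !σ) j) 1) (b (some σ) i) := by
        rw [Matrix.mulVec_single_one]; rfl
      rw [e1, ← Matrix.mulVec_mulVec, hcol', ← Matrix.mulVec_mulVec, ← hcol,
        Matrix.mulVec_mulVec, ← Units.val_mul, inv_mul_cancel, Units.val_one, Matrix.one_mulVec,
        Pi.single_apply, Matrix.one_apply]
      congr 1
      rw [eq_iff_iff]
      constructor
      · intro h
        have := hb (a₁ := (some σ, i)) (a₂ := (some σ, j)) h
        simpa using this
      · rintro rfl; rfl
    rw [hone, Matrix.det_one]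
    exact isUnit_one

/-- selection matrix -/
def selM {R : Type*} [CommRing R] (f : Fin r → I) : Matrix (Fin r) I R :=
  Matrix.of fun i k => if k = f i then 1 else 0

theorem selM_mulVec {R : Type*} [CommRing R] (f : Fin r → I) (x : I → R) (i : Fin r) :
    ((selM f : Matrix (Fin r) I R) *ᵥ x) i = x (f i) := by
  simp only [selM, Matrix.mulVec, dotProduct, Matrix.of_apply, ite_mul, one_mul, zero_mul]
  rw [Finset.sum_ite_eq' Finset.univ (f i), if_pos (Finset.mem_univ _)]

theorem selM_mul {R : Type*} [CommRing R] {J : Type*} (f : Fin r → I) (M : Matrix I J R) (i : Fin r)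
    (k : J) : ((selM f : Matrix (Fin r) I R) * M) i k = M (f i) k := by
  rw [Matrix.mul_apply]
  simp only [selM, Matrix.of_apply, ite_mul, one_mul, zero_mul]
  rw [Finset.sum_ite_eq' Finset.univ (f i), if_pos (Finset.mem_univ _)]

theorem mul_selM {R : Type*} [CommRing R] {J : Type*} (f : Fin r → I) (M : Matrix J I R)
    (k : J) (i : Fin r) : (M * (selM f : Matrix (Fin r) I R)ᵀ) k i = M k (f i) := by
  rw [Matrix.mul_apply]
  simp only [selM, Matrix.transpose_apply, Matrix.of_apply, mul_ite, mul_one, mul_zero]
  rw [Finset.sum_ite_eq' Finset.univ (f i), if_pos (Finset.mem_univ _)]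

theorem submatrix_eq {R : Type*} [CommRing R] (f g : Fin r → I) (M : Matrix I I R) :
    M.submatrix f g =
      (selM f : Matrix (Fin r) I R) * M * (selM g : Matrix (Fin r) I R)ᵀ := by
  ext i j
  rw [mul_selM, selM_mul, Matrix.submatrix_apply]

theorem selM_mul_transpose {R : Type*} [CommRing R] (f : Fin r → I) (hf : Function.Injective f) :
    (selM f : Matrix (Fin r) I R) * (selM f : Matrix (Fin r) I R)ᵀ = 1 := by
  ext i j
  rw [mul_selM, Matrix.one_apply]
  simp only [selM, Matrix.of_apply]
  congr 1
  rw [eq_iff_iff]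
  exact ⟨fun h => (hf h).symm, fun h => by rw [h]⟩

open Classical in
/-- generic row matrix -/
noncomputable def genC (F : Type*) [Field F] (b : Option Bool → Fin r → I) :
    Matrix (Fin r) I (MvPolynomial ((Fin r × I) ⊕ (I × Fin r)) F) :=
  Matrix.of fun i k => if k ∈ Set.range (b none) then 0 else MvPolynomial.X (Sum.inl (i, k))

/-- generic column matrix -/
noncomputable def genR (F : Type*) [Field F] (r : ℕ) (I : Type*) :
    Matrix I (Fin r) (MvPolynomial ((Fin r × I) ⊕ (I × Fin r)) F) :=
  Matrix.of fun k i => MvPolynomial.X (Sum.inr (k, i))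

omit [Fintype I] in
theorem map_genC (y : (Fin r × I) ⊕ (I × Fin r) → F) (C0 : Matrix (Fin r) I F)
    (h0 : ∀ i k, C0 i (b none k) = 0) (hy : ∀ i k, y (Sum.inl (i, k)) = C0 i k) :
    (genC F b).map (MvPolynomial.eval y) = C0 := by
  classical
  ext i k
  rw [Matrix.map_apply, genC, Matrix.of_apply]
  split_ifs with h
  · obtain ⟨a, rfl⟩ := h
    rw [map_zero, h0]
  · rw [MvPolynomial.eval_X, hy]

omit [Fintype I] [DecidableEq I] in
theorem map_genR (y : (Fin r × I) ⊕ (I × Fin r) → F) (R0 : Matrix I (Fin r) F)
    (hy : ∀ k i, y (Sum.inr (k, i)) = R0 k i) :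
    (genR F r I).map (MvPolynomial.eval y) = R0 := by
  ext k i
  rw [Matrix.map_apply, genR, Matrix.of_apply, MvPolynomial.eval_X, hy]

omit [Fintype I] in
theorem map_genC_none (y : (Fin r × I) ⊕ (I × Fin r) → F) (i k) :
    (genC F b).map (MvPolynomial.eval y) i (b none k) = 0 := by
  classical
  rw [Matrix.map_apply, genC, Matrix.of_apply, if_pos ⟨k, rfl⟩, map_zero]

omit [Fintype I] [DecidableEq I] in
theorem map_map_C (y : (Fin r × I) ⊕ (I × Fin r) → F) (m : Matrix I I F) :
    (m.map (MvPolynomial.C (σ := (Fin r × I) ⊕ (I × Fin r)))).map (MvPolynomial.eval y) = m := by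
  ext i k
  rw [Matrix.map_apply, Matrix.map_apply, MvPolynomial.eval_C]

theorem exists_CR [Infinite F] (hb : Function.Injective fun x : Option Bool × Fin r => b x.1 x.2)
    (m : GL I F) (σ : Bool) :
    ∃ (C : Matrix (Fin r) I F) (R : Matrix I (Fin r) F), (∀ i k, C i (b none k) = 0) ∧
      C * R = 1 ∧ IsUnit (C * (m : Matrix I I F) * R).det := by
  classical
  have hinj : Function.Injective (b (some σ)) := fun i j h => by
    have := hb (a₁ := (some σ, i)) (a₂ := (some σ, j)) h
    simpa using this
  have hC00 : ∀ i k, (selM (b (some σ)) : Matrix (Fin r) I F) i (b none k) = 0 := by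
    intro i k
    simp only [selM, Matrix.of_apply]
    rw [if_neg]
    intro h
    have := hb (a₁ := (none, k)) (a₂ := (some σ, i)) h
    simp at this
  have hev : ∀ y : (Fin r × I) ⊕ (I × Fin r) → F,
      MvPolynomial.eval y (genC F b * genR F r I).det =
      (((genC F b).map (MvPolynomial.eval y)) * ((genR F r I).map (MvPolynomial.eval y))).det := by
    intro y
    rw [RingHom.map_det, RingHom.mapMatrix_apply, Matrix.map_mul]
  have hev2 : ∀ y : (Fin r × I) ⊕ (I × Fin r) → F,
      MvPolynomial.eval y (genC F b * ((m : Matrix I I F).map (MvPolynomial.C (σ := (Fin r × I) ⊕ (I × Fin r)))) * genR F r I).det =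
      (((genC F b).map (MvPolynomial.eval y)) * (m : Matrix I I F) *
        ((genR F r I).map (MvPolynomial.eval y))).det := by
    intro y
    rw [RingHom.map_det, RingHom.mapMatrix_apply, Matrix.map_mul, Matrix.map_mul, map_map_C]
  have h1 : (genC F b * genR F r I).det ≠ 0 := by
    intro h0
    have := hev (Sum.elim (fun x => (selM (b (some σ)) : Matrix (Fin r) I F) x.1 x.2)
      (fun x => (selM (b (some σ)) : Matrix (Fin r) I F)ᵀ x.1 x.2))
    rw [h0, map_zero, map_genC b _ _ hC00 (fun i k => rfl),
      map_genR _ (selM (b (some σ)) : Matrix (Fin r) I F)ᵀ (fun i k => rfl),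
      selM_mul_transpose _ hinj, Matrix.det_one] at this
    exact zero_ne_one this
  have h2 : (genC F b * ((m : Matrix I I F).map (MvPolynomial.C (σ := (Fin r × I) ⊕ (I × Fin r)))) * genR F r I).det ≠ 0 := by
    intro h0
    have := hev2 (Sum.elim (fun x => (selM (b (some σ)) : Matrix (Fin r) I F) x.1 x.2)
      (fun x => (((m⁻¹ : GL I F) : Matrix I I F) *
        (selM (b (some σ)) : Matrix (Fin r) I F)ᵀ) x.1 x.2))
    rw [h0, map_zero, map_genC b _ _ hC00 (fun i k => rfl),
      map_genR _ (((m⁻¹ : GL I F) : Matrix I I F) *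
        (selM (b (some σ)) : Matrix (Fin r) I F)ᵀ) (fun i k => rfl),
      Matrix.mul_assoc, ← Matrix.mul_assoc (m : Matrix I I F), ← Units.val_mul, mul_inv_cancel,
      Units.val_one, Matrix.one_mul, selM_mul_transpose _ hinj, Matrix.det_one] at this
    exact zero_ne_one this
  have h3 := mul_ne_zero h1 h2
  obtain ⟨y, hy⟩ : ∃ y : (Fin r × I) ⊕ (I × Fin r) → F,
      MvPolynomial.eval y ((genC F b * genR F r I).det *
      (genC F b * ((m : Matrix I I F).map (MvPolynomial.C (σ := (Fin r × I) ⊕ (I × Fin r)))) * genR F r I).det) ≠ 0 := by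
    by_contra hcon
    push Not at hcon
    exact h3 (MvPolynomial.funext fun y => by rw [hcon y, map_zero])
  rw [map_mul, hev, hev2] at hy
  have hC1 := map_genC_none (F := F) b y
  generalize (genC F b).map (MvPolynomial.eval y) = C1 at hy hC1
  generalize (genR F r I).map (MvPolynomial.eval y) = R1 at hy
  have hy1 : IsUnit (C1 * R1).det := isUnit_iff_ne_zero.2 (left_ne_zero_of_mul hy)
  have hy2 : IsUnit (C1 * (m : Matrix I I F) * R1).det :=
    isUnit_iff_ne_zero.2 (right_ne_zero_of_mul hy)
  refine ⟨C1, R1 * (C1 * R1)⁻¹, hC1, ?_, ?_⟩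
  · rw [← Matrix.mul_assoc]
    exact Matrix.mul_nonsing_inv _ hy1
  · rw [← Matrix.mul_assoc, Matrix.det_mul]
    exact hy2.mul (Matrix.isUnit_nonsing_inv_det _ hy1)

theorem sum_single (y : Fin r → F) : y = ∑ i, y i • (Pi.single i 1 : Fin r → F) := by
  funext k
  rw [Finset.sum_apply, Finset.sum_eq_single k]
  · simp
  · intro j _ hj
    simp [hj.symm]
  · intro h; exact absurd (Finset.mem_univ _) h

theorem exists_h_same [Infinite F]
    (hb : Function.Injective fun x : Option Bool × Fin r => b x.1 x.2)
    (m : GL I F) (σ : Bool) :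
    ∃ h : GL I F, Std b (h : Matrix I I F) ∧
      IsUnit ((((h⁻¹ : GL I F) : Matrix I I F) * (m : Matrix I I F) *
        (h : Matrix I I F)).submatrix (b (some σ)) (b (some σ))).det := by
  classical
  obtain ⟨C, R, hC, hCR, hdet⟩ := exists_CR b hb m σ
  have hinj : ∀ i j, b (some σ) i = b (some σ) j → i = j := fun i j h => by
    have := hb (a₁ := (some σ, i)) (a₂ := (some σ, j)) h
    simpa using this
  have hnone : ∀ i, b (some σ) i ∉ Set.range (b none) := by
    rintro i ⟨k, hk⟩
    have := hb (a₁ := (none, k)) (a₂ := (some σ, i)) hk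
    simp at this
  have hCs : ∀ k, C *ᵥ Pi.single (b none k) 1 = 0 := by
    intro k
    funext i
    rw [Matrix.mulVec_single_one]
    exact hC i k
  let v : Fin r ⊕ Fin r → (I → F) :=
    Sum.elim (fun i => Pi.single (b none i) 1) (fun i => R *ᵥ Pi.single i 1)
  have hv : LinearIndependent F v := by
    rw [Fintype.linearIndependent_iff]
    intro g hg
    rw [Fintype.sum_sum_type] at hg
    simp only [v, Sum.elim_inl, Sum.elim_inr] at hg
    have hR : ∑ i, g (Sum.inr i) • (R *ᵥ (Pi.single i 1 : Fin r → F)) =
        R *ᵥ fun i => g (Sum.inr i) := by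
      rw [sum_single (fun i => g (Sum.inr i)), Matrix.mulVec_sum]
      simp only [Matrix.mulVec_smul]
    rw [hR] at hg
    have h1 := congrArg (fun w => C *ᵥ w) hg
    simp only [Matrix.mulVec_add, Matrix.mulVec_zero, Matrix.mulVec_mulVec, hCR,
      Matrix.one_mulVec, Matrix.mulVec_sum, Matrix.mulVec_smul, hCs, smul_zero,
      Finset.sum_const_zero, zero_add] at h1
    have k2 : ∀ i, g (Sum.inr i) = 0 := fun i => congrFun h1 i
    have k1 : ∀ i, g (Sum.inl i) = 0 := by
      intro i
      rw [h1, Matrix.mulVec_zero, add_zero] at hg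
      have h2 := congrFun hg (b none i)
      simp only [Finset.sum_apply, Pi.smul_apply, smul_eq_mul, Pi.zero_apply] at h2
      rw [Finset.sum_eq_single i] at h2
      · simpa using h2
      · intro k _ hk
        have : b none k ≠ b none i := fun h => hk (by
          have := hb (a₁ := (none, k)) (a₂ := (none, i)) h
          simpa using this)
        rw [Pi.single_apply, if_neg this.symm, mul_zero]
      · intro h; exact absurd (Finset.mem_univ _) h
    rintro (i | i)
    · exact k1 i
    · exact k2 i
  obtain ⟨h0, hh0⟩ := exists_cols (Sum.elim (b none) (b (some σ))) (by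
    rintro (i | i) (j | j) hij
    · have := hb (a₁ := (none, i)) (a₂ := (none, j)) hij
      simp only [Prod.mk.injEq, true_and] at this
      rw [this]
    · exact absurd ⟨i, hij⟩ (hnone j)
    · exact absurd ⟨j, hij.symm⟩ (hnone i)
    · rw [hinj i j hij]) v hv
  have hcolA : ∀ i, (h0 : Matrix I I F) *ᵥ Pi.single (b none i) 1 = Pi.single (b none i) 1 := by
    intro i
    funext k
    rw [Matrix.mulVec_single_one]
    exact hh0 (Sum.inl i) k
  have hcolS : ∀ i, (h0 : Matrix I I F) *ᵥ Pi.single (b (some σ) i) 1 = R *ᵥ Pi.single i 1 := by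
    intro i
    funext k
    rw [Matrix.mulVec_single_one]
    exact hh0 (Sum.inr i) k
  let E : Matrix (Fin r) I F := selM (b (some σ))
  let h' : Matrix I I F := (1 - R * C) * (h0 : Matrix I I F) + R * E
  have hCh' : C * h' = E := by
    simp only [h', Matrix.mul_add, ← Matrix.mul_assoc, Matrix.mul_sub, hCR, Matrix.mul_one,
      Matrix.one_mul, sub_self, Matrix.zero_mul, zero_add]
  have hEs : ∀ (x : I → F) (i), (E *ᵥ x) i = x (b (some σ) i) := fun x i => selM_mulVec _ _ _
  have hunit : IsUnit h' := by
    rw [← Matrix.mulVec_injective_iff_isUnit]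
    rw [← Matrix.coe_mulVecLin, injective_iff_map_eq_zero]
    intro x hx
    rw [Matrix.mulVecLin_apply] at hx
    have h1 : E *ᵥ x = 0 := by
      rw [← hCh', ← Matrix.mulVec_mulVec, hx, Matrix.mulVec_zero]
    have h2 : (h0 : Matrix I I F) *ᵥ x = R *ᵥ (C *ᵥ ((h0 : Matrix I I F) *ᵥ x)) := by
      have h3 : h' *ᵥ x = (h0 : Matrix I I F) *ᵥ x - R *ᵥ (C *ᵥ ((h0 : Matrix I I F) *ᵥ x)) +
          R *ᵥ (E *ᵥ x) := by
        simp only [h', Matrix.add_mulVec, Matrix.sub_mulVec, ← Matrix.mulVec_mulVec,
          Matrix.one_mulVec]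
      rw [hx, h1, Matrix.mulVec_zero, add_zero] at h3
      exact (sub_eq_zero.1 h3.symm)
    set y := C *ᵥ ((h0 : Matrix I I F) *ᵥ x) with hy
    have h4 : (h0 : Matrix I I F) *ᵥ (∑ i, y i • Pi.single (b (some σ) i) (1 : F)) = R *ᵥ y := by
      rw [Matrix.mulVec_sum]
      simp only [Matrix.mulVec_smul, hcolS]
      conv_rhs => rw [sum_single y, Matrix.mulVec_sum]
      simp only [Matrix.mulVec_smul]
    have h5 : x = ∑ i, y i • Pi.single (b (some σ) i) (1 : F) := by
      have hi := Matrix.mulVec_injective_iff_isUnit.2 h0.isUnit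
      apply hi
      rw [h4]; exact h2
    have h6 : y = 0 := by
      funext i
      have h7 := congrFun h1 i
      rw [hEs, h5] at h7
      simp only [Finset.sum_apply, Pi.smul_apply, smul_eq_mul, Pi.zero_apply] at h7
      rw [Finset.sum_eq_single i] at h7
      · simpa using h7
      · intro k _ hk
        have : b (some σ) k ≠ b (some σ) i := fun h => hk (hinj _ _ h)
        rw [Pi.single_apply, if_neg this.symm, mul_zero]
      · intro h; exact absurd (Finset.mem_univ _) h
    rw [h5, h6]
    simp
  obtain ⟨g, hg⟩ := hunit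
  have hginv : h' * ((g⁻¹ : GL I F) : Matrix I I F) = 1 := by
    rw [← hg, ← Units.val_mul, mul_inv_cancel, Units.val_one]
  refine ⟨g, ?_, ?_⟩
  · intro i k
    rw [hg]
    have h1 : h' *ᵥ Pi.single (b none i) 1 = Pi.single (b none i) 1 := by
      have : E *ᵥ Pi.single (b none i) 1 = 0 := by
        funext k
        rw [hEs, Pi.single_apply, if_neg]
        · rfl
        · intro h
          exact hnone k ⟨i, h.symm⟩
      simp only [h', Matrix.add_mulVec, ← Matrix.mulVec_mulVec, hcolA, Matrix.sub_mulVec,
        Matrix.one_mulVec, hCs, Matrix.mulVec_zero, sub_zero, this, add_zero]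
    have h2 := congrFun h1 k
    rw [Matrix.mulVec_single_one] at h2
    change h' k (b none i) = _ at h2
    rw [h2, Pi.single_apply, Matrix.one_apply]
  · have hEinv : E * ((g⁻¹ : GL I F) : Matrix I I F) = C := by
      rw [← hCh', Matrix.mul_assoc, hginv, Matrix.mul_one]
    have hET : h' * Eᵀ = R := by
      ext k j
      have h1 : (h' * Eᵀ) k j = (h' *ᵥ Pi.single (b (some σ) j) 1) k := by
        rw [mul_selM, Matrix.mulVec_single_one]; rfl
      have hEsing : E *ᵥ Pi.single (b (some σ) j) 1 = Pi.single j 1 := by
        funext i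
        rw [hEs, Pi.single_apply, Pi.single_apply]
        congr 1
        rw [eq_iff_iff]
        exact ⟨fun h => hinj _ _ h, fun h => by rw [h]⟩
      rw [h1]
      simp only [h', Matrix.add_mulVec, ← Matrix.mulVec_mulVec, hcolS, Matrix.sub_mulVec,
        Matrix.one_mulVec, hEsing]
      rw [Matrix.mulVec_mulVec _ C R, hCR, Matrix.one_mulVec, sub_self, zero_add,
        Matrix.mulVec_single_one]
      rfl
    rw [submatrix_eq, hg]
    have : E * (((g⁻¹ : GL I F) : Matrix I I F) * (m : Matrix I I F) * h') * Eᵀ =
        C * (m : Matrix I I F) * R := by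
      calc E * (((g⁻¹ : GL I F) : Matrix I I F) * (m : Matrix I I F) * h') * Eᵀ
          = (E * ((g⁻¹ : GL I F) : Matrix I I F)) * (m : Matrix I I F) *
            (h' * Eᵀ) := by simp only [Matrix.mul_assoc]
        _ = _ := by rw [hEinv, hET]
    change IsUnit (E * (((g⁻¹ : GL I F) : Matrix I I F) * (m : Matrix I I F) * h') * Eᵀ).det
    rw [this]
    exact hdet

open Classical in
/-- generic standard matrix over a commutative ring -/
noncomputable def genH {R : Type*} [CommRing R] (y : I × I → R) : Matrix I I R :=
  Matrix.of fun i j => if j ∈ Set.range (b none) then (1 : Matrix I I R) i j else y (i, j)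

omit [Fintype I] in
theorem genH_std {R : Type*} [CommRing R] (y : I × I → R) : Std b (genH b y) := by
  classical
  intro i k
  rw [genH, Matrix.of_apply, if_pos ⟨i, rfl⟩]

omit [Fintype I] in
theorem genH_of_std {R : Type*} [CommRing R] (h : Matrix I I R) (hh : Std b h) :
    genH b (fun p => h p.1 p.2) = h := by
  classical
  ext i j
  rw [genH, Matrix.of_apply]
  split_ifs with hj
  · obtain ⟨a, rfl⟩ := hj
    exact (hh a i).symm
  · rfl

omit [Fintype I] in
theorem map_genH {R S : Type*} [CommRing R] [CommRing S] (f : R →+* S) (y : I × I → R) :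
    (genH b y).map f = genH b (fun p => f (y p)) := by
  classical
  ext i j
  rw [Matrix.map_apply, genH, genH, Matrix.of_apply, Matrix.of_apply]
  split_ifs
  · rw [Matrix.one_apply, Matrix.one_apply]
    split_ifs
    · exact map_one f
    · exact map_zero f
  · rfl

theorem generic_det (k : Subfield F) (ξ : I × I → F) (hξ : AlgebraicIndependent k ξ) :
    IsUnit (genH b ξ).det := by
  rw [isUnit_iff_ne_zero]
  let HP : Matrix I I (MvPolynomial (I × I) k) := genH b MvPolynomial.X
  have hev : ∀ y : I × I → F, MvPolynomial.aeval y HP.det = (genH b y).det := by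
    intro y
    have := RingHom.map_det (MvPolynomial.aeval (R := k) y).toRingHom HP
    change MvPolynomial.aeval y HP.det = _ at this
    rw [this]
    congr 1
    rw [RingHom.mapMatrix_apply, map_genH]
    congr 1
    funext p
    exact MvPolynomial.aeval_X y p
  have h0 : HP.det ≠ 0 := by
    intro h0
    have h1 := hev (fun p => (1 : Matrix I I F) p.1 p.2)
    rw [h0, map_zero, genH_of_std b 1 (fun i k => rfl), Matrix.det_one] at h1
    exact zero_ne_one h1
  intro h
  rw [← hev ξ] at h
  exact h0 (hξ.eq_zero_of_aeval_eq_zero _ h)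

theorem adjugate_GL (h : GL I F) : (h : Matrix I I F).adjugate =
    (h : Matrix I I F).det • ((h⁻¹ : GL I F) : Matrix I I F) := by
  have h1 : (h : Matrix I I F).adjugate * (h : Matrix I I F) * ((h⁻¹ : GL I F) : Matrix I I F) =
      (h : Matrix I I F).det • ((h⁻¹ : GL I F) : Matrix I I F) := by
    rw [Matrix.adjugate_mul, Matrix.smul_mul, Matrix.one_mul]
  rwa [Matrix.mul_assoc, ← Units.val_mul, mul_inv_cancel, Units.val_one, Matrix.mul_one] at h1

theorem block_unit_iff (h : GL I F) (m : Matrix I I F) (f g : Fin r → I) :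
    (((h : Matrix I I F).adjugate * m * (h : Matrix I I F)).submatrix f g).det ≠ 0 ↔
    IsUnit ((((h⁻¹ : GL I F) : Matrix I I F) * m * (h : Matrix I I F)).submatrix f g).det := by
  rw [adjugate_GL, Matrix.smul_mul, Matrix.smul_mul, Matrix.submatrix_smul, Pi.smul_apply,
    Pi.smul_apply, Matrix.det_smul, isUnit_iff_ne_zero]
  have : (h : Matrix I I F).det ^ Fintype.card (Fin r) ≠ 0 := by
    apply pow_ne_zero
    have := (Matrix.isUnit_iff_isUnit_det _).1 h.isUnit
    exact this.ne_zero
  constructor
  · exact fun h1 => right_ne_zero_of_mul h1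
  · exact fun h1 => mul_ne_zero this h1

/-- a generic standard matrix does what some standard matrix does -/
theorem generic (k : Subfield F) (ξ : I × I → F) (hξ : AlgebraicIndependent k ξ)
    (H : GL I F) (hH : (H : Matrix I I F) = genH b ξ) (m : Matrix I I k) (f g : Fin r → I)
    (hex : ∃ h : GL I F, Std b (h : Matrix I I F) ∧
      IsUnit ((((h⁻¹ : GL I F) : Matrix I I F) * m.map k.subtype * (h : Matrix I I F)).submatrix
        f g).det) :
    IsUnit ((((H⁻¹ : GL I F) : Matrix I I F) * m.map k.subtype * (H : Matrix I I F)).submatrix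
        f g).det := by
  let HP : Matrix I I (MvPolynomial (I × I) k) := genH b MvPolynomial.X
  let Δ := ((HP.adjugate * m.map (MvPolynomial.C (σ := I × I)) * HP).submatrix f g).det
  have hev : ∀ y : I × I → F, MvPolynomial.aeval y Δ =
      (((genH b y).adjugate * m.map k.subtype * (genH b y)).submatrix f g).det := by
    intro y
    have h1 := RingHom.map_det (MvPolynomial.aeval (R := k) y).toRingHom
      ((HP.adjugate * m.map (MvPolynomial.C (σ := I × I)) * HP).submatrix f g)
    change MvPolynomial.aeval y Δ = _ at h1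
    rw [h1]
    congr 1
    have hHP : HP.map (MvPolynomial.aeval (R := k) y).toRingHom = genH b y := by
      rw [map_genH]
      congr 1
      funext p
      exact MvPolynomial.aeval_X y p
    have hm : (m.map (MvPolynomial.C (σ := I × I))).map
        (MvPolynomial.aeval (R := k) y).toRingHom = m.map k.subtype := by
      ext i j
      rw [Matrix.map_apply, Matrix.map_apply, Matrix.map_apply]
      exact MvPolynomial.aeval_C y (m i j)
    have hadj : (HP.adjugate).map (MvPolynomial.aeval (R := k) y).toRingHom =
        (genH b y).adjugate := by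
      have := RingHom.map_adjugate (MvPolynomial.aeval (R := k) y).toRingHom HP
      rw [RingHom.mapMatrix_apply, RingHom.mapMatrix_apply] at this
      rw [this, hHP]
    change ((HP.adjugate * m.map (MvPolynomial.C (σ := I × I)) * HP).submatrix f g).map
      (MvPolynomial.aeval (R := k) y).toRingHom = _
    rw [← Matrix.submatrix_map, Matrix.map_mul, Matrix.map_mul, hadj, hm, hHP]
  have h0 : Δ ≠ 0 := by
    intro h0
    obtain ⟨h, hstd, hu⟩ := hex
    have h1 := hev (fun p => (h : Matrix I I F) p.1 p.2)
    rw [h0, map_zero, genH_of_std b _ hstd] at h1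
    exact (block_unit_iff h _ f g).2 hu h1.symm
  rw [← block_unit_iff, hH, ← hev ξ]
  exact fun h => h0 (hξ.eq_zero_of_aeval_eq_zero _ h)

end blocks

end Pool.Agent.TH137.PG
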