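import Mathlib

/-!
# Pencils of linear maps

If `P, T : V → Q` are linear, `P` is onto, `dim Q ≥ 2ρ` and every `T - aP` has rank at least `ρ`,
then there are `ρ` vectors `u_i` such that the `2ρ` vectors `P u_i`, `T u_i` are independent.
-/

namespace Pool.Agent.TH137.PG

open Module

universe u v w

variable {F : Type u} [Field F] {V : Type v} [AddCommGroup V] [Module F V]

theorem dep_of_dep {Q : Type w} [AddCommGroup Q] [Module F Q] {x y : Q} {a : F}
    (h : LinearIndependent F ![x, y]) : LinearIndependent F ![x, a • x + y] := by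
  rw [LinearIndependent.pair_iff] at h ⊢
  intro s t hst
  have h1 : (s + t * a) • x + t • y = 0 := by
    rw [← hst]; module
  obtain ⟨h2, h3⟩ := h _ _ h1
  subst h3
  simp only [zero_mul, add_zero] at h2
  exact ⟨h2, rfl⟩

theorem pencil_scalar {Q : Type w} [AddCommGroup Q] [Module F Q] [FiniteDimensional F Q]
    (P T : V →ₗ[F] Q) (hP : Function.Surjective P) (hq : 2 ≤ finrank F Q)
    (h : ∀ u, ¬ LinearIndependent F ![P u, T u]) : ∃ a : F, T = a • P := by
  obtain ⟨σ, hσ⟩ := LinearMap.exists_rightInverse_of_surjective P (LinearMap.range_eq_top.2 hP)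
  have hσ' : ∀ y, P (σ y) = y := fun y => LinearMap.congr_fun hσ y
  obtain ⟨a, ha⟩ := LinearMap.exists_eq_smul_id_of_forall_notLinearIndependent (f := T ∘ₗ σ)
    (fun y hy => h (σ y) (by rw [hσ']; exact hy))
  have ha' : ∀ y, T (σ y) = a • y := fun y => LinearMap.congr_fun ha y
  refine ⟨a, LinearMap.ext fun u => ?_⟩
  rw [LinearMap.smul_apply]
  by_contra hne
  set w := T u - a • P u with hw
  have hw0 : w ≠ 0 := sub_ne_zero.2 hne
  obtain ⟨y, hy⟩ : ∃ y : Q, y ∉ Submodule.span F {w} := by
    by_contra hcon
    push Not at hcon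
    have htop : (⊤ : Submodule F Q) ≤ Submodule.span F {w} := fun y _ => hcon y
    have h1 := Submodule.finrank_mono htop
    rw [finrank_top, finrank_span_singleton hw0] at h1
    omega
  have hli : LinearIndependent F ![y, w] := by
    rw [LinearIndependent.pair_iff]
    intro s t hst
    have hs : s = 0 := by
      by_contra hs
      apply hy
      rw [Submodule.mem_span_singleton]
      refine ⟨-(s⁻¹ * t), ?_⟩
      have : y = s⁻¹ • (s • y + t • w) + (-(s⁻¹ * t)) • w := by
        rw [smul_add, smul_smul, inv_mul_cancel₀ hs]; module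
      rw [hst, smul_zero, zero_add] at this
      exact this.symm
    subst hs
    rw [zero_smul, zero_add] at hst
    exact ⟨rfl, (smul_eq_zero.1 hst).resolve_right hw0⟩
  apply h (σ y + (u - σ (P u)))
  have e1 : P (σ y + (u - σ (P u))) = y := by
    rw [map_add, map_sub, hσ', hσ', sub_self, add_zero]
  have e2 : T (σ y + (u - σ (P u))) = a • y + w := by
    rw [map_add, map_sub, ha', ha', hw]
  rw [e1, e2]
  exact dep_of_dep hli

theorem exists_functionals {Q : Type w} [AddCommGroup Q] [Module F Q] {x y : Q}
    (h : LinearIndependent F ![x, y]) :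
    ∃ f g : Q →ₗ[F] F, f x = 1 ∧ f y = 0 ∧ g x = 0 ∧ g y = 1 := by
  let b := Basis.span h
  have hx : ∀ i, (b i : Q) = ![x, y] i := fun i => by simp [b, Basis.span_apply]
  obtain ⟨f, hf⟩ := LinearMap.exists_extend (b.coord 0)
  obtain ⟨g, hg⟩ := LinearMap.exists_extend (b.coord 1)
  have hf' : ∀ i, f (![x, y] i) = b.coord 0 (b i) := fun i => by
    rw [← hx i, ← hf]; rfl
  have hg' : ∀ i, g (![x, y] i) = b.coord 1 (b i) := fun i => by
    rw [← hx i, ← hg]; rfl
  refine ⟨f, g, ?_, ?_, ?_, ?_⟩
  · have := hf' 0; simpa using this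
  · have := hf' 1; simpa using this
  · have := hg' 0; simpa using this
  · have := hg' 1; simpa using this

theorem finite_quad (a b c : F) : {z : F | (a + z) * (b + z) = c}.Finite := by
  classical
  let p : Polynomial F := (Polynomial.X + Polynomial.C a) * (Polynomial.X + Polynomial.C b) -
    Polynomial.C c
  have hp : p ≠ 0 := by
    intro h0
    have : p.coeff 2 = 0 := by rw [h0]; simp
    have h2 : p = Polynomial.X ^ 2 + Polynomial.C (a + b) * Polynomial.X +
        Polynomial.C (a * b - c) := by
      simp only [p, map_add, map_sub, map_mul]; ring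
    rw [h2] at this
    simp at this
  refine (p.roots.toFinset.finite_toSet).subset fun z hz => ?_
  simp only [Finset.mem_coe, Multiset.mem_toFinset]
  rw [Polynomial.mem_roots hp]
  simp only [p, Polynomial.IsRoot.def, Polynomial.eval_sub, Polynomial.eval_mul,
    Polynomial.eval_add, Polynomial.eval_X, Polynomial.eval_C]
  have hz' : (a + z) * (b + z) = c := hz
  rw [← hz']; ring

theorem finrank_le_map {Q R : Type*} [AddCommGroup Q] [Module F Q] [FiniteDimensional F Q]
    [AddCommGroup R] [Module F R] (f : Q →ₗ[F] R) (U : Submodule F Q) :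
    finrank F U ≤ finrank F (U.map f) + finrank F (U ⊓ LinearMap.ker f : Submodule F Q) := by
  have h1 := LinearMap.finrank_range_add_finrank_ker (f.domRestrict U)
  rw [LinearMap.range_domRestrict] at h1
  have h2 : finrank F (LinearMap.ker (f.domRestrict U)) =
      finrank F (U ⊓ LinearMap.ker f : Submodule F Q) := by
    rw [LinearMap.ker_domRestrict]
    have e : (Submodule.comap U.subtype (LinearMap.ker f)).map U.subtype =
        U ⊓ LinearMap.ker f := Submodule.map_comap_subtype U (LinearMap.ker f)
    rw [← e]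
    exact (Submodule.finrank_map_subtype_eq U _).symm
  omega

theorem exists_good_vector [Infinite F] {Q : Type w} [AddCommGroup Q] [Module F Q]
    [FiniteDimensional F Q] (P T : V →ₗ[F] Q) (hP : Function.Surjective P)
    (hq : 2 ≤ finrank F Q) (hr : ∀ a : F, LinearMap.range (T - a • P) ≠ ⊥) :
    ∃ u : V, LinearIndependent F ![P u, T u] ∧
      ∀ a : F, LinearMap.range (T - a • P) ≠ ⊤ → P u ∉ LinearMap.range (T - a • P) := by
  classical
  have hns : ∃ u0, LinearIndependent F ![P u0, T u0] := by
    by_contra hcon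
    push Not at hcon
    obtain ⟨a, ha⟩ := pencil_scalar P T hP hq hcon
    apply hr a
    rw [ha, sub_self, LinearMap.range_zero]
  obtain ⟨u0, hu0⟩ := hns
  obtain ⟨σ, hσ⟩ := LinearMap.exists_rightInverse_of_surjective P (LinearMap.range_eq_top.2 hP)
  have hσ' : ∀ y, P (σ y) = y := fun y => LinearMap.congr_fun hσ y
  let f : Module.End F Q := T ∘ₗ σ
  have hfin : {μ | f.HasEigenvalue μ}.Finite := Module.End.finite_hasEigenvalue f
  have hS : ∀ a : F, LinearMap.range (T - a • P) ≠ ⊤ → f.HasEigenvalue a := by
    intro a ha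
    by_contra hcon
    apply ha
    have hinj : LinearMap.ker (f - a • (1 : Module.End F Q)) = ⊥ := by
      by_contra hk
      apply hcon
      rw [Module.End.hasEigenvalue_iff, Module.End.eigenspace_def]
      simpa [Algebra.algebraMap_eq_smul_one] using hk
    have hsurj := LinearMap.range_eq_top.2 ((LinearMap.injective_iff_surjective (K := F)).1
      (LinearMap.ker_eq_bot.1 hinj))
    rw [eq_top_iff] at hsurj ⊢
    intro y hy
    obtain ⟨x, hx⟩ := hsurj hy
    refine ⟨σ x, ?_⟩
    rw [← hx]
    simp [f, hσ']
  let S : Finset F := hfin.toFinset.filter fun a => LinearMap.range (T - a • P) ≠ ⊤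
  have hmem : ∀ a : F, LinearMap.range (T - a • P) ≠ ⊤ → a ∈ S := by
    intro a ha
    simp only [S, Finset.mem_filter, Set.Finite.mem_toFinset]
    exact ⟨hS a ha, ha⟩
  have hmem' : ∀ a ∈ S, LinearMap.range (T - a • P) ≠ ⊤ := by
    intro a ha
    simp only [S, Finset.mem_filter] at ha
    exact ha.2
  obtain ⟨u1, hu1⟩ : ∃ u1 : V, ∀ a ∈ S, P u1 ∉ LinearMap.range (T - a • P) := by
    let s : Finset (Subspace F V) := S.image fun a => (LinearMap.range (T - a • P)).comap P
    have htop : ⊤ ∉ s := by
      intro h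
      simp only [s, Finset.mem_image] at h
      obtain ⟨a, ha, h⟩ := h
      apply hmem' a ha
      rw [eq_top_iff]
      intro y _
      obtain ⟨x, rfl⟩ := hP y
      have : x ∈ (LinearMap.range (T - a • P)).comap P := by rw [h]; trivial
      exact this
    have := Subspace.biUnion_ne_univ_of_top_notMem htop
    rw [Set.ne_univ_iff_exists_notMem] at this
    obtain ⟨u1, hu1⟩ := this
    refine ⟨u1, fun a ha h => hu1 ?_⟩
    simp only [Set.mem_iUnion]
    exact ⟨_, Finset.mem_image_of_mem _ ha, h⟩
  obtain ⟨φ, ψ, h1, h2, h3, h4⟩ := exists_functionals hu0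
  have hbad1 : {z : F | (φ (P u1) + z) * (ψ (T u1) + z) = φ (T u1) * ψ (P u1)}.Finite :=
    finite_quad _ _ _
  have hbad2 : (⋃ a ∈ S, {z : F | P (u1 + z • u0) ∈ LinearMap.range (T - a • P)}).Finite := by
    refine Set.Finite.biUnion S.finite_toSet fun a ha => ?_
    apply Set.Subsingleton.finite
    intro z hz z' hz'
    by_contra hne
    apply hu1 a ha
    have hz1 : P u1 + z • P u0 ∈ LinearMap.range (T - a • P) := by
      have := hz; simpa using this
    have hz1' : P u1 + z' • P u0 ∈ LinearMap.range (T - a • P) := by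
      have := hz'; simpa using this
    have hd : (z - z') • P u0 ∈ LinearMap.range (T - a • P) := by
      have := Submodule.sub_mem _ hz1 hz1'
      have e : P u1 + z • P u0 - (P u1 + z' • P u0) = (z - z') • P u0 := by module
      rwa [e] at this
    have hd' : P u0 ∈ LinearMap.range (T - a • P) := by
      have := Submodule.smul_mem _ (z - z')⁻¹ hd
      rwa [smul_smul, inv_mul_cancel₀ (sub_ne_zero.2 hne), one_smul] at this
    have := Submodule.sub_mem _ hz1 (Submodule.smul_mem _ z hd')
    rwa [add_sub_cancel_right] at this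
  obtain ⟨z, hz⟩ := (hbad1.union hbad2).exists_notMem
  simp only [Set.mem_union, Set.mem_iUnion, not_or, not_exists, Set.mem_ofPred_eq] at hz
  refine ⟨u1 + z • u0, ?_, fun a ha => hz.2 a (hmem a ha)⟩
  rw [LinearIndependent.pair_iff]
  intro s t hst
  have e1 := congrArg φ hst
  have e2 := congrArg ψ hst
  simp only [map_add, map_smul, smul_eq_mul, map_zero, h1, h2, h3, h4, mul_one, mul_zero,
    add_zero] at e1 e2
  have hdet : (φ (P u1) + z) * (ψ (T u1) + z) - φ (T u1) * ψ (P u1) ≠ 0 := sub_ne_zero.2 hz.1
  constructor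
  · have : s * ((φ (P u1) + z) * (ψ (T u1) + z) - φ (T u1) * ψ (P u1)) = 0 := by
      linear_combination (ψ (T u1) + z) * e1 - φ (T u1) * e2
    exact (mul_eq_zero.1 this).resolve_right hdet
  · have : t * ((φ (P u1) + z) * (ψ (T u1) + z) - φ (T u1) * ψ (P u1)) = 0 := by
      linear_combination (φ (P u1) + z) * e2 - ψ (P u1) * e1
    exact (mul_eq_zero.1 this).resolve_right hdet

theorem pencil [Infinite F] : ∀ (ρ : ℕ) (Q : Type w) [AddCommGroup Q] [Module F Q]
    [FiniteDimensional F Q] (P T : V →ₗ[F] Q) (_ : Function.Surjective P)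
    (_ : 2 * ρ ≤ finrank F Q) (_ : ∀ a : F, ρ ≤ finrank F (LinearMap.range (T - a • P))),
    ∃ u : Fin ρ → V, LinearIndependent F (Sum.elim (P ∘ u) (T ∘ u)) := by
  intro ρ
  induction ρ with
  | zero =>
    intro Q _ _ _ P T _ _ _
    exact ⟨Fin.elim0, linearIndependent_empty_type⟩
  | succ ρ ih =>
    intro Q _ _ _ P T hP hq hr
    obtain ⟨u, hu, hu'⟩ := exists_good_vector P T hP (by omega) (fun a h => by
      have := hr a
      rw [h, finrank_bot] at this
      omega)
    let W : Submodule F Q := Submodule.span F (Set.range ![P u, T u])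
    have hW : finrank F W = 2 := by
      rw [finrank_span_eq_card hu]; simp
    have hPu : P u ∈ W := Submodule.subset_span ⟨0, rfl⟩
    have hTu : T u ∈ W := Submodule.subset_span ⟨1, rfl⟩
    have hQ' : finrank F (Q ⧸ W) + 2 = finrank F Q := by
      rw [← hW]; exact Submodule.finrank_quotient_add_finrank W
    obtain ⟨u', hu''⟩ := ih (Q ⧸ W) (W.mkQ ∘ₗ P) (W.mkQ ∘ₗ T)
      (by rw [LinearMap.coe_comp]; exact W.mkQ_surjective.comp hP) (by omega) (fun a => by
        have e : W.mkQ ∘ₗ T - a • (W.mkQ ∘ₗ P) = W.mkQ ∘ₗ (T - a • P) := by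
          ext x; simp
        rw [e, LinearMap.range_comp]
        by_cases htop : LinearMap.range (T - a • P) = ⊤
        · rw [htop, Submodule.map_top, Submodule.range_mkQ, finrank_top]
          omega
        · have h1 := finrank_le_map W.mkQ (LinearMap.range (T - a • P))
          rw [Submodule.ker_mkQ] at h1
          have h2 : finrank F (LinearMap.range (T - a • P) ⊓ W : Submodule F Q) < 2 := by
            rw [← hW]
            apply Submodule.finrank_lt_finrank_of_lt
            refine lt_of_le_of_ne inf_le_right fun h => ?_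
            apply hu' a htop
            have : P u ∈ (LinearMap.range (T - a • P) ⊓ W : Submodule F Q) := by
              rw [h]; exact hPu
            exact this.1
          have h3 := hr a
          omega)
    refine ⟨Fin.cons u u', ?_⟩
    rw [Fintype.linearIndependent_iff] at hu'' ⊢
    intro g hg
    rw [Fintype.sum_sum_type, Fin.sum_univ_succ, Fin.sum_univ_succ] at hg
    simp only [Sum.elim_inl, Sum.elim_inr, Function.comp_apply, Fin.cons_zero, Fin.cons_succ] at hg
    have hm := congrArg W.mkQ hg
    rw [map_add, map_add, map_add, map_smul, map_smul, map_zero, map_sum, map_sum] at hm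
    have hz1 : W.mkQ (P u) = 0 := by rwa [Submodule.mkQ_apply, Submodule.Quotient.mk_eq_zero]
    have hz2 : W.mkQ (T u) = 0 := by rwa [Submodule.mkQ_apply, Submodule.Quotient.mk_eq_zero]
    rw [hz1, hz2, smul_zero, smul_zero, zero_add, zero_add] at hm
    have key := hu'' (Sum.elim (fun i => g (Sum.inl i.succ)) (fun i => g (Sum.inr i.succ)))
      (by
        rw [Fintype.sum_sum_type]
        simp only [Sum.elim_inl, Sum.elim_inr, Function.comp_apply, LinearMap.comp_apply]
        simpa only [map_smul] using hm)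
    have k1 : ∀ i : Fin ρ, g (Sum.inl i.succ) = 0 := fun i => key (Sum.inl i)
    have k2 : ∀ i : Fin ρ, g (Sum.inr i.succ) = 0 := fun i => key (Sum.inr i)
    simp only [k1, k2, zero_smul, Finset.sum_const_zero, add_zero] at hg
    rw [LinearIndependent.pair_iff] at hu
    obtain ⟨z1, z2⟩ := hu _ _ hg
    rintro (i | i)
    · refine Fin.cases ?_ (fun i => ?_) i
      · exact z1
      · exact k1 i
    · refine Fin.cases ?_ (fun i => ?_) i
      · exact z2
      · exact k2 i

end Pool.Agent.TH137.PG
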