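import Mathlib

/-!
# Cyclic words over a free group with one more generator
-/

namespace Pool.Agent.TH137.PG

universe u

variable {S : Type u}

/-- the new generator or its inverse -/
def sg (σ : Bool) : FreeGroup (Option S) :=
  if σ then FreeGroup.of none else (FreeGroup.of none)⁻¹

/-- the word attached to a list -/
def gword : List (Bool × FreeGroup S) → FreeGroup (Option S)
  | [] => 1
  | x :: l => sg x.1 * FreeGroup.map some x.2 * gword l

/-- no cancellation between consecutive letters -/
def Sx (x y : Bool × FreeGroup S) : Prop := x.1 = y.1 ∨ x.2 ≠ 1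

theorem sg_mul_sg_not (σ : Bool) : (sg σ : FreeGroup (Option S)) * sg (!σ) = 1 := by
  cases σ <;> simp [sg]

theorem gword_append (l l' : List (Bool × FreeGroup S)) :
    gword (l ++ l') = gword l * gword l' := by
  induction l with
  | nil => simp [gword]
  | cons x l ih =>
    rw [List.cons_append, gword, gword, ih]
    simp only [mul_assoc]

theorem exists_list (w : FreeGroup (Option S)) :
    ∃ (γ : FreeGroup S) (l : List (Bool × FreeGroup S)), w = FreeGroup.map some γ * gword l := by
  induction w using FreeGroup.induction_on with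
  | C1 => exact ⟨1, [], by simp [gword]⟩
  | of x =>
    cases x with
    | none => exact ⟨1, [(true, 1)], by simp [gword, sg]⟩
    | some s => exact ⟨FreeGroup.of s, [], by simp [gword]⟩
  | inv_of x _ =>
    cases x with
    | none => exact ⟨1, [(false, 1)], by simp [gword, sg]⟩
    | some s => exact ⟨(FreeGroup.of s)⁻¹, [], by simp [gword]⟩
  | mul x y hx hy =>
    obtain ⟨γ, l, rfl⟩ := hx
    obtain ⟨γ', l', rfl⟩ := hy
    rcases List.eq_nil_or_concat l with rfl | ⟨l₀, z, rfl⟩
    · refine ⟨γ * γ', l', ?_⟩
      simp [gword, mul_assoc]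
    · refine ⟨γ, l₀ ++ [(z.1, z.2 * γ')] ++ l', ?_⟩
      rw [gword_append, gword_append, List.concat_eq_append, gword_append]
      simp only [gword, map_mul]
      group

theorem not_chain_split {α : Type*} {R : α → α → Prop} (l : List α) (h : ¬ l.IsChain R) :
    ∃ l₁ a b l₂, l = l₁ ++ a :: b :: l₂ ∧ ¬ R a b := by
  induction l with
  | nil => exact absurd List.isChain_nil h
  | cons x l ih =>
    cases l with
    | nil => exact absurd (List.isChain_singleton x) h
    | cons y l =>
      rw [List.isChain_cons_cons, not_and_or] at h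
      rcases h with h | h
      · exact ⟨[], x, y, l, rfl, h⟩
      · obtain ⟨l₁, a, b, l₂, h1, h2⟩ := ih h
        exact ⟨x :: l₁, a, b, l₂, by rw [h1]; rfl, h2⟩

theorem conj_form : ∀ (N : ℕ) (γ : FreeGroup S) (l : List (Bool × FreeGroup S)) (_ : l.length ≤ N),
    ∃ c : FreeGroup (Option S),
      (∃ γ' : FreeGroup S, FreeGroup.map some γ * gword l = c * FreeGroup.map some γ' * c⁻¹) ∨
      (∃ x l', FreeGroup.map some γ * gword l = c * gword (x :: l') * c⁻¹ ∧
        (x :: l').IsChain Sx ∧ Sx ((x :: l').getLast (List.cons_ne_nil x l')) x) := by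
  intro N
  induction N with
  | zero =>
    intro γ l hl
    have : l = [] := List.length_eq_zero_iff.1 (Nat.le_zero.1 hl)
    subst this
    exact ⟨1, Or.inl ⟨γ, by simp [gword]⟩⟩
  | succ N ih =>
    intro γ l hl
    rcases List.eq_nil_or_concat l with rfl | ⟨l₀, z, rfl⟩
    · exact ⟨1, Or.inl ⟨γ, by simp [gword]⟩⟩
    -- move γ to the end
    rw [List.concat_eq_append] at hl ⊢
    set m := l₀ ++ [(z.1, z.2 * γ)] with hm
    have hmlen : m.length ≤ N + 1 := by
      simpa [hm] using hl
    have hconj : FreeGroup.map some γ * gword (l₀ ++ [z]) =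
        FreeGroup.map some γ * gword m * (FreeGroup.map some γ)⁻¹ := by
      rw [hm, gword_append, gword_append]
      simp only [gword, map_mul]
      group
    have hmne : m ≠ [] := by simp [hm]
    -- it suffices to treat gword m
    suffices hs : ∃ c : FreeGroup (Option S),
        (∃ γ' : FreeGroup S, gword m = c * FreeGroup.map some γ' * c⁻¹) ∨
        (∃ x l', gword m = c * gword (x :: l') * c⁻¹ ∧
          (x :: l').IsChain Sx ∧ Sx ((x :: l').getLast (List.cons_ne_nil x l')) x) by
      obtain ⟨c, h | h⟩ := hs
      · obtain ⟨γ', h⟩ := h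
        refine ⟨FreeGroup.map some γ * c, Or.inl ⟨γ', ?_⟩⟩
        rw [hconj, h]; group
      · obtain ⟨x, l', h, h1, h2⟩ := h
        refine ⟨FreeGroup.map some γ * c, Or.inr ⟨x, l', ?_, h1, h2⟩⟩
        rw [hconj, h]; group
    by_cases hch : m.IsChain Sx
    · obtain ⟨x, l', hxl⟩ := List.exists_cons_of_ne_nil hmne
      by_cases hcyc : Sx ((x :: l').getLast (List.cons_ne_nil x l')) x
      · exact ⟨1, Or.inr ⟨x, l', by rw [hxl]; group, by rw [← hxl]; exact hch, hcyc⟩⟩
      · -- cyclic cancellation
        rw [Sx, not_or, not_not] at hcyc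
        obtain ⟨h1, h2⟩ := hcyc
        rcases List.eq_nil_or_concat l' with rfl | ⟨l₁, y, rfl⟩
        · exact absurd rfl h1
        · have hlast : ((x :: l₁.concat y).getLast (List.cons_ne_nil x (l₁.concat y))) = y := by
            simp
          rw [hlast] at h1 h2
          have hy : y = (!x.1, 1) := by
            apply Prod.ext
            · exact Bool.eq_not.2 h1
            · exact h2
          have hw : gword m = sg x.1 * (FreeGroup.map some x.2 * gword l₁) * (sg x.1)⁻¹ := by
            rw [hxl, List.concat_eq_append, gword, gword_append, hy]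
            simp only [gword, map_one, mul_one]
            have : (sg (!x.1) : FreeGroup (Option S)) = (sg x.1)⁻¹ :=
              (inv_eq_of_mul_eq_one_right (sg_mul_sg_not x.1)).symm
            rw [this]
            group
          have hlen : l₁.length ≤ N := by
            rw [hxl] at hmlen
            simp at hmlen
            omega
          obtain ⟨c, h | h⟩ := ih x.2 l₁ hlen
          · obtain ⟨γ', h⟩ := h
            refine ⟨sg x.1 * c, Or.inl ⟨γ', ?_⟩⟩
            rw [hw, h]; group
          · obtain ⟨x', l', h, h3, h4⟩ := h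
            refine ⟨sg x.1 * c, Or.inr ⟨x', l', ?_, h3, h4⟩⟩
            rw [hw, h]; group
    · obtain ⟨l₁, a, d, l₂, hsplit, hnot⟩ := not_chain_split m hch
      rw [Sx, not_or, not_not] at hnot
      obtain ⟨h1, h2⟩ := hnot
      have hd : d.1 = !a.1 := Bool.eq_not.2 (fun h => h1 h.symm)
      have hw : gword m = gword l₁ * (FreeGroup.map some d.2 * gword (l₂ ++ l₁)) *
          (gword l₁)⁻¹ := by
        rw [hsplit, gword_append, gword, gword, gword_append, h2, hd, map_one, mul_one]
        have := sg_mul_sg_not (S := S) a.1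
        calc gword l₁ * (sg a.1 * (sg (!a.1) * FreeGroup.map some d.2 * gword l₂))
            = gword l₁ * ((sg a.1 * sg (!a.1)) * FreeGroup.map some d.2 * gword l₂) := by group
          _ = _ := by rw [this]; group
      have hlen : (l₂ ++ l₁).length ≤ N := by
        rw [hsplit] at hmlen
        simp at hmlen ⊢
        omega
      obtain ⟨c, h | h⟩ := ih d.2 (l₂ ++ l₁) hlen
      · obtain ⟨γ', h⟩ := h
        refine ⟨gword l₁ * c, Or.inl ⟨γ', ?_⟩⟩
        rw [hw, h]; group
      · obtain ⟨x', l', h, h3, h4⟩ := h
        refine ⟨gword l₁ * c, Or.inr ⟨x', l', ?_, h3, h4⟩⟩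
        rw [hw, h]; group

theorem conj_form' (w : FreeGroup (Option S)) :
    ∃ c : FreeGroup (Option S),
      (∃ γ' : FreeGroup S, w = c * FreeGroup.map some γ' * c⁻¹) ∨
      (∃ x l', w = c * gword (x :: l') * c⁻¹ ∧
        (x :: l').IsChain Sx ∧ Sx ((x :: l').getLast (List.cons_ne_nil x l')) x) := by
  obtain ⟨γ, l, rfl⟩ := exists_list w
  exact conj_form l.length γ l le_rfl

end Pool.Agent.TH137.PG
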