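import Pool.Agent.TH137.PG.Core
import Pool.Agent.TH137.PG.Generic
import Pool.Agent.TH137.PG.Big
import Pool.Agent.TH137.PG.Words

/-!
# Adding one generator
-/

namespace Pool.Agent.TH137.PG

open Matrix Module Cardinal

universe u

variable {F : Type u} [Field F] {I : Type} [Fintype I] [DecidableEq I]

/-- far from all scalars -/
def Good (r : ℕ) (g : GL I F) : Prop :=
  ∀ c : F, 2 * r ≤ ((g : Matrix I I F) - c • (1 : Matrix I I F)).rank

theorem Good.conj {r : ℕ} {g : GL I F} (hg : Good r g) (h : GL I F) :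
    Good r (h * g * h⁻¹) := by
  intro c
  have e1 : ((h * g * h⁻¹ : GL I F) : Matrix I I F) - c • (1 : Matrix I I F) =
      (h : Matrix I I F) * ((g : Matrix I I F) - c • (1 : Matrix I I F)) *
        ((h⁻¹ : GL I F) : Matrix I I F) := by
    rw [Matrix.mul_sub, Matrix.sub_mul, Matrix.mul_smul, Matrix.smul_mul, Matrix.mul_one,
      ← Units.val_mul, ← Units.val_mul, ← Units.val_mul, mul_inv_cancel, Units.val_one]
  rw [e1, Matrix.rank_mul_eq_left_of_isUnit_det _ _ ((Matrix.isUnit_iff_isUnit_det _).1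
    (h⁻¹ : GL I F).isUnit), Matrix.rank_mul_eq_right_of_isUnit_det _ _
    ((Matrix.isUnit_iff_isUnit_det _).1 h.isUnit)]
  exact hg c

theorem Good.conj' {r : ℕ} {g : GL I F} (hg : Good r g) (h : GL I F) :
    Good r (h⁻¹ * g * h) := by
  have := hg.conj h⁻¹
  rwa [inv_inv] at this

theorem Good.of_conj {r : ℕ} {g h : GL I F} (hg : Good r (h * g * h⁻¹)) : Good r g := by
  have := hg.conj' h
  have e : h⁻¹ * (h * g * h⁻¹) * h = g := by group
  rwa [e] at this

section data

variable {r : ℕ} (b : Option Bool → Fin r → I) {S : Type u} {R : Type*} [CommRing R]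

/-- the elementary matrices -/
def Mel (H g0 : GL I R) (φ : FreeGroup S →* GL I R) (σ : Bool) (γ : FreeGroup S) (τ : Bool) :
    GL I R :=
  H⁻¹ * ((if σ then 1 else g0⁻¹) * φ γ * (if τ then g0 else 1)) * H

theorem map_Mel {R' : Type*} [CommRing R'] (f : R →+* R') (H g0 : GL I R)
    (φ : FreeGroup S →* GL I R) (σ : Bool) (γ : FreeGroup S) (τ : Bool) :
    Matrix.GeneralLinearGroup.map f (Mel H g0 φ σ γ τ) =
      Mel (Matrix.GeneralLinearGroup.map f H) (Matrix.GeneralLinearGroup.map f g0)
        ((Matrix.GeneralLinearGroup.map f).comp φ) σ γ τ := by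
  cases σ <;> cases τ <;> simp [Mel]

/-- first sign of a list, or the default -/
def nxt (e0 : Bool) : List (Bool × FreeGroup S) → Bool
  | [] => e0
  | x :: _ => x.1

/-- list of matrices from a list of letters -/
def mlist (M : Bool → FreeGroup S → Bool → GL I R) (e0 : Bool) :
    List (Bool × FreeGroup S) → List (Bool × GL I R)
  | [] => []
  | x :: l => (x.1, M x.1 x.2 (nxt e0 l)) :: mlist M e0 l

theorem mapL_mlist {R' : Type*} [CommRing R'] (f : R →+* R')
    (M : Bool → FreeGroup S → Bool → GL I R) (e0 : Bool) (l : List (Bool × FreeGroup S)) :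
    mapL f (mlist M e0 l) =
      mlist (fun σ γ τ => Matrix.GeneralLinearGroup.map f (M σ γ τ)) e0 l := by
  induction l with
  | nil => rfl
  | cons x l ih =>
    rw [mlist, mlist, ← ih]
    rfl

theorem mlist_ne_nil (M : Bool → FreeGroup S → Bool → GL I R) (e0 : Bool)
    (x : Bool × FreeGroup S) (l : List (Bool × FreeGroup S)) : mlist M e0 (x :: l) ≠ [] := by
  rw [mlist]
  exact List.cons_ne_nil _ _

theorem mlist_getLast (M : Bool → FreeGroup S → Bool → GL I R) (e0 : Bool) :
    ∀ (l : List (Bool × FreeGroup S)) (x : Bool × FreeGroup S),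
    (mlist M e0 (x :: l)).getLast (mlist_ne_nil M e0 x l) =
      (((x :: l).getLast (List.cons_ne_nil x l)).1,
        M ((x :: l).getLast (List.cons_ne_nil x l)).1
          ((x :: l).getLast (List.cons_ne_nil x l)).2 e0) := by
  intro l
  induction l with
  | nil => intro x; rfl
  | cons y l ih =>
    intro x
    rw [List.getLast_cons (List.cons_ne_nil y l), ← ih y]
    exact List.getLast_cons (mlist_ne_nil M e0 y l)

theorem mlist_chain (e : Bool → Fin r → I) (M : Bool → FreeGroup S → Bool → GL I R)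
    (hM : ∀ (σ : Bool) (γ : FreeGroup S) (τ : Bool), (σ = τ ∨ γ ≠ 1) →
      ∀ y : Bool × GL I R, y.1 = τ → Tr e (σ, M σ γ τ) y) (e0 : Bool) :
    ∀ (l : List (Bool × FreeGroup S)), l.IsChain Sx → (mlist M e0 l).IsChain (Tr e) := by
  intro l
  induction l with
  | nil => intro _; exact List.isChain_nil
  | cons x l ih =>
    intro h
    cases l with
    | nil => exact List.isChain_singleton _
    | cons y l =>
      rw [List.isChain_cons_cons] at h
      have h2 := ih h.2
      rw [mlist] at h2 ⊢
      rw [mlist]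
      rw [List.isChain_cons_cons]
      exact ⟨hM _ _ _ h.1 _ rfl, h2⟩

/-- product of the list with a group element in place of the diagonal matrices -/
def dprod (D : GL I R) : List (Bool × GL I R) → GL I R
  | [] => 1
  | x :: l => (if x.1 then D else D⁻¹) * x.2 * dprod D l

theorem eval_gword (H g0 D : GL I R) (φ : FreeGroup S →* GL I R)
    (Φ : FreeGroup (Option S) →* GL I R) (hφ : ∀ γ, Φ (FreeGroup.map some γ) = φ γ)
    (hX : Φ (FreeGroup.of none) = g0 * H * D * H⁻¹) (e0 : Bool)
    (l : List (Bool × FreeGroup S)) :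
    Φ (gword l) * ((if e0 then g0 else 1) * H) =
      ((if nxt e0 l then g0 else 1) * H) * dprod D (mlist (Mel H g0 φ) e0 l) := by
  induction l with
  | nil => cases e0 <;> simp [gword, nxt, mlist, dprod]
  | cons x l ih =>
    have hsg : Φ (sg x.1) = (if x.1 then g0 else 1) * H * (if x.1 then D else D⁻¹) * H⁻¹ *
        (if x.1 then 1 else g0⁻¹) := by
      cases hx : x.1
      · simp only [sg, Bool.false_eq_true, if_false, map_inv, hX]; group
      · simp only [sg, if_true, hX]; group
    rw [gword, map_mul, map_mul, hφ, mul_assoc, ih, mlist, dprod, nxt, hsg, Mel]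
    group

end data

section Wm

variable {r : ℕ} (e : Bool → Fin r → I)

/-- the group element attached to the diagonal matrices -/
theorem exists_D (he : Function.Injective fun x : Bool × Fin r => e x.1 x.2) (t : F)
    (ht : t ≠ 0) : ∃ D : GL I F, t • (D : Matrix I I F) = Dm e t true ∧
      t • ((D⁻¹ : GL I F) : Matrix I I F) = Dm e t false := by
  have h1 := Dm_mul e he t true
  have h2 := Dm_mul e he t false
  rw [Bool.not_true] at h1
  rw [Bool.not_false] at h2
  have ht2 : t ^ 2 ≠ 0 := pow_ne_zero _ ht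
  refine ⟨⟨t⁻¹ • Dm e t true, t⁻¹ • Dm e t false, ?_, ?_⟩, ?_, ?_⟩
  · rw [Matrix.smul_mul, Matrix.mul_smul, h1, smul_smul, smul_smul]
    have : t⁻¹ * t⁻¹ * t ^ 2 = 1 := by field_simp
    rw [this, one_smul]
  · rw [Matrix.smul_mul, Matrix.mul_smul, h2, smul_smul, smul_smul]
    have : t⁻¹ * t⁻¹ * t ^ 2 = 1 := by field_simp
    rw [this, one_smul]
  · change t • (t⁻¹ • Dm e t true) = _
    rw [smul_smul, mul_inv_cancel₀ ht, one_smul]
  · change t • (t⁻¹ • Dm e t false) = _
    rw [smul_smul, mul_inv_cancel₀ ht, one_smul]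

theorem Wm_eq (t : F) (D : GL I F) (h1 : t • (D : Matrix I I F) = Dm e t true)
    (h2 : t • ((D⁻¹ : GL I F) : Matrix I I F) = Dm e t false) (l : List (Bool × GL I F)) :
    Wm e t l = t ^ l.length • (dprod D l : Matrix I I F) := by
  induction l with
  | nil => simp [Wm, dprod]
  | cons x l ih =>
    have hx : Dm e t x.1 = t • (((if x.1 then D else D⁻¹) : GL I F) : Matrix I I F) := by
      cases x.1
      · simp only [Bool.false_eq_true, if_false]
        exact h2.symm
      · simp only [if_true]
        exact h1.symm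
    rw [Wm, dprod, ih, hx, List.length_cons, pow_succ, Units.val_mul, Units.val_mul]
    simp only [Matrix.smul_mul, Matrix.mul_smul, smul_smul, mul_assoc]

theorem good_of_Wm (t : F) (ht : t ≠ 0) (D : GL I F) (h1 : t • (D : Matrix I I F) = Dm e t true)
    (h2 : t • ((D⁻¹ : GL I F) : Matrix I I F) = Dm e t false) (l : List (Bool × GL I F))
    (h : ∀ c : F, 2 * r ≤ (Wm e t l - c • (1 : Matrix I I F)).rank) : Good r (dprod D l) := by
  intro c
  have h3 := h (t ^ l.length * c)
  rw [Wm_eq e t D h1 h2, ← smul_smul, ← smul_sub] at h3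
  have htl : t ^ l.length ≠ 0 := pow_ne_zero _ ht
  have h4 : (t ^ l.length • ((dprod D l : Matrix I I F) - c • (1 : Matrix I I F))).rank ≤
      ((dprod D l : Matrix I I F) - c • (1 : Matrix I I F)).rank := by
    have h5 : t ^ l.length • ((dprod D l : Matrix I I F) - c • (1 : Matrix I I F)) =
        (t ^ l.length • (1 : Matrix I I F)) *
          ((dprod D l : Matrix I I F) - c • (1 : Matrix I I F)) := by
      rw [Matrix.smul_mul, Matrix.one_mul]
    rw [h5]
    exact Matrix.rank_mul_le_right _ _
  exact h3.trans h4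

end Wm

section main

variable {r : ℕ} (b : Option Bool → Fin r → I)

theorem TT (hb : Function.Injective fun x : Option Bool × Fin r => b x.1 x.2)
    (hI : 3 * r ≤ Fintype.card I) [Infinite F] {S : Type u} (k : Subfield F) (ξ : I × I → F)
    (hξ : AlgebraicIndependent k ξ) (H : GL I F) (hH : (H : Matrix I I F) = genH b ξ)
    (gk : GL I k) (φk : FreeGroup S →* GL I k)
    (hgood : ∀ γ, γ ≠ 1 → Good r (Matrix.GeneralLinearGroup.map k.subtype (φk γ)))
    (σ : Bool) (γ : FreeGroup S) (τ : Bool) (h : σ = τ ∨ γ ≠ 1) :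
    IsUnit (((Mel H (Matrix.GeneralLinearGroup.map k.subtype gk)
      ((Matrix.GeneralLinearGroup.map k.subtype).comp φk) σ γ τ : GL I F) :
        Matrix I I F).submatrix (b (some σ)) (b (some τ))).det ∧
    IsUnit ((((Mel H (Matrix.GeneralLinearGroup.map k.subtype gk)
      ((Matrix.GeneralLinearGroup.map k.subtype).comp φk) σ γ τ)⁻¹ : GL I F) :
        Matrix I I F).submatrix (b (some !τ)) (b (some !σ))).det := by
  set mk : GL I k := (if σ then 1 else gk⁻¹) * φk γ * (if τ then gk else 1) with hmk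
  have e1 : Mel H (Matrix.GeneralLinearGroup.map k.subtype gk)
      ((Matrix.GeneralLinearGroup.map k.subtype).comp φk) σ γ τ =
      H⁻¹ * Matrix.GeneralLinearGroup.map k.subtype mk * H := by
    rw [Mel, hmk]
    cases σ <;> cases τ <;> simp
  have e2 : (Mel H (Matrix.GeneralLinearGroup.map k.subtype gk)
      ((Matrix.GeneralLinearGroup.map k.subtype).comp φk) σ γ τ)⁻¹ =
      H⁻¹ * Matrix.GeneralLinearGroup.map k.subtype mk⁻¹ * H := by
    rw [e1, map_inv]; group
  rw [e2, e1]
  have hcoe : ∀ m : GL I k, ((H⁻¹ * Matrix.GeneralLinearGroup.map k.subtype m * H : GL I F) :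
      Matrix I I F) = ((H⁻¹ : GL I F) : Matrix I I F) * (m : Matrix I I k).map k.subtype *
        (H : Matrix I I F) := fun m => rfl
  rw [hcoe, hcoe]
  have hcoe2 : ∀ m : GL I k, (m : Matrix I I k).map k.subtype =
      ((Matrix.GeneralLinearGroup.map k.subtype m : GL I F) : Matrix I I F) := fun m => rfl
  rcases Bool.eq_or_eq_not τ σ with hτ | hτ
  · subst hτ
    constructor
    · apply generic b k ξ hξ H hH
      rw [hcoe2]
      exact exists_h_same b hb _ _
    · apply generic b k ξ hξ H hH
      rw [hcoe2]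
      exact exists_h_same b hb _ _
  · subst hτ
    have hγ : γ ≠ 1 := h.resolve_left (by cases σ <;> simp)
    have hG : Good r (Matrix.GeneralLinearGroup.map k.subtype mk) := by
      cases σ
      · have := (hgood γ hγ).conj' (Matrix.GeneralLinearGroup.map k.subtype gk)
        simpa [hmk] using this
      · simpa [hmk] using hgood γ hγ
    have hG' : Good r (Matrix.GeneralLinearGroup.map k.subtype mk⁻¹) := by
      have hγ' : γ⁻¹ ≠ 1 := inv_ne_one.2 hγ
      cases σ
      · have := (hgood _ hγ').conj' (Matrix.GeneralLinearGroup.map k.subtype gk)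
        simpa [hmk, mul_assoc] using this
      · simpa [hmk] using hgood _ hγ'
    constructor
    · apply generic b k ξ hξ H hH
      rw [hcoe2]
      exact exists_h_opp b hb hI _ hG _
    · rw [Bool.not_not]
      apply generic b k ξ hξ H hH
      rw [hcoe2]
      exact exists_h_opp b hb hI _ hG' _

theorem Tr_of_map {K L : Type*} [Field K] [Field L] (e : Bool → Fin r → I) (f : K →+* L)
    {x y : Bool × GL I K}
    (h : Tr e (x.1, Matrix.GeneralLinearGroup.map f x.2)
      (y.1, Matrix.GeneralLinearGroup.map f y.2)) : Tr e x y := by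
  have key : ∀ (n : ℕ) (M : Matrix (Fin n) (Fin n) K), IsUnit (M.map f).det → IsUnit M.det := by
    intro n M hM
    have : (M.map f).det = f M.det := (RingHom.map_det f M).symm
    rw [this, isUnit_iff_ne_zero] at hM
    rw [isUnit_iff_ne_zero]
    rintro h0
    apply hM
    rw [h0, map_zero]
  constructor
  · exact key _ _ h.1
  · apply key
    have := h.2
    change IsUnit ((((Matrix.GeneralLinearGroup.map f x.2)⁻¹ : GL I L) : Matrix I I L).submatrix
      (e !y.1) (e !x.1)).det at this
    rw [← map_GL_inv] at this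
    exact this

/-- a family of matrices all of whose nontrivial words are far from scalars -/
def GoodFam (r : ℕ) {S : Type u} (x : S → GL I F) : Prop :=
  ∀ w : FreeGroup S, w ≠ 1 → Good r (FreeGroup.lift x w)

/-- descend an invertible matrix to a subfield containing its entries -/
theorem exists_lift (k : Subfield F) (g : GL I F) (hg : ∀ i j, (g : Matrix I I F) i j ∈ k) :
    ∃ g' : GL I k, Matrix.GeneralLinearGroup.map k.subtype g' = g := by
  let m : Matrix I I k := Matrix.of fun i j => ⟨_, hg i j⟩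
  have hm : m.map k.subtype = (g : Matrix I I F) := by
    ext i j; rfl
  have hdet : m.det ≠ 0 := by
    intro h0
    have h1 := RingHom.map_det k.subtype m
    rw [RingHom.mapMatrix_apply, hm, h0, map_zero] at h1
    exact ((Matrix.isUnit_iff_isUnit_det _).1 g.isUnit).ne_zero h1.symm
  refine ⟨Matrix.GeneralLinearGroup.mkOfDetNeZero m hdet, ?_⟩
  apply Units.ext
  exact hm

theorem core_list (O : ValuationSubring F) (e : Bool → Fin r → I)
    (he : Function.Injective fun x : Bool × Fin r => e x.1 x.2)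
    (hI : 3 * r ≤ Fintype.card I) (t : O) (ht0 : t ≠ 0) (ht : t ∈ IsLocalRing.maximalIdeal O)
    (L : List (Bool × GL I O)) (hL : L ≠ []) (hch : L.IsChain (Tr e))
    (hcyc : Tr e (L.getLast hL) (L.head hL)) (c : F) :
    2 * r ≤ ((Wm e t L).map (algebraMap O F) - c • (1 : Matrix I I F)).rank := by
  cases L with
  | nil => exact absurd rfl hL
  | cons x l => exact core O e he hI t ht0 ht x l hch hcyc c

theorem good_of_chain {S : Type u} (O : ValuationSubring F) (e : Bool → Fin r → I)
    (he : Function.Injective fun x : Bool × Fin r => e x.1 x.2)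
    (hI : 3 * r ≤ Fintype.card I) (k1 : Subfield F) (j1 : k1 →+* O)
    (hj1 : ∀ y : k1, (algebraMap O F) (j1 y) = (y : F)) (t : F) (ht0 : t ≠ 0)
    (ht : t ∈ O.nonunits) (D : GL I F) (hD1 : t • (D : Matrix I I F) = Dm e t true)
    (hD2 : t • ((D⁻¹ : GL I F) : Matrix I I F) = Dm e t false)
    (M1 : Bool → FreeGroup S → Bool → GL I k1) (M : Bool → FreeGroup S → Bool → GL I F)
    (hM : ∀ σ γ τ, Matrix.GeneralLinearGroup.map k1.subtype (M1 σ γ τ) = M σ γ τ)
    (hTr : ∀ (σ : Bool) (γ : FreeGroup S) (τ : Bool), (σ = τ ∨ γ ≠ 1) →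
      ∀ y : Bool × GL I k1, y.1 = τ → Tr e (σ, M1 σ γ τ) y)
    (y : Bool × FreeGroup S) (l : List (Bool × FreeGroup S)) (hch : (y :: l).IsChain Sx)
    (hcyc : Sx ((y :: l).getLast (List.cons_ne_nil y l)) y) :
    Good r (dprod D (mlist M y.1 (y :: l))) := by
  apply good_of_Wm e t ht0 D hD1 hD2
  intro c'
  have htOmem : t ∈ O := ValuationSubring.nonunits_le (A := O) ht
  have hne : mlist M1 y.1 (y :: l) ≠ [] := mlist_ne_nil _ _ _ _
  have hne' : mapL j1 (mlist M1 y.1 (y :: l)) ≠ [] := by
    simpa [mapL] using hne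
  have hchain1 : (mlist M1 y.1 (y :: l)).IsChain (Tr e) := mlist_chain _ _ hTr _ _ hch
  have hlast : (mapL j1 (mlist M1 y.1 (y :: l))).getLast hne' =
      (((mlist M1 y.1 (y :: l)).getLast hne).1,
        Matrix.GeneralLinearGroup.map j1 ((mlist M1 y.1 (y :: l)).getLast hne).2) := by
    simp only [mapL]
    exact List.getLast_map ..
  have hhead : (mapL j1 (mlist M1 y.1 (y :: l))).head hne' =
      (y.1, Matrix.GeneralLinearGroup.map j1 (M1 y.1 y.2 (nxt y.1 l))) := rfl
  have h2 : Tr e ((mlist M1 y.1 (y :: l)).getLast hne) (y.1, M1 y.1 y.2 (nxt y.1 l)) := by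
    rw [mlist_getLast M1 y.1 l y]
    exact hTr _ _ _ hcyc _ rfl
  have hcore := core_list O e he hI ⟨t, htOmem⟩ (fun h => ht0 (congrArg Subtype.val h)) (by
      rw [← ValuationSubring.coe_mem_nonunits_iff]
      exact ht) (mapL j1 (mlist M1 y.1 (y :: l))) hne' (chain_map e j1 hchain1) (by
      rw [hlast, hhead]
      exact h2.map e j1) c'
  rw [map_Wm, mapL_mlist, mapL_mlist] at hcore
  have h5 : (fun (σ : Bool) (γ : FreeGroup S) (τ : Bool) =>
      Matrix.GeneralLinearGroup.map (algebraMap O F)
        (Matrix.GeneralLinearGroup.map j1 (M1 σ γ τ))) = M := by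
    funext σ γ τ
    rw [← hM]
    apply Units.ext
    ext i j
    exact hj1 _
  rw [h5] at hcore
  exact hcore

theorem words_good {S : Type u} (x : S → GL I F) (hx : GoodFam r x) (g0 H D g : GL I F)
    (hg : g = g0 * H * D * H⁻¹)
    (hnice : ∀ (y : Bool × FreeGroup S) (l : List (Bool × FreeGroup S)), (y :: l).IsChain Sx →
      Sx ((y :: l).getLast (List.cons_ne_nil y l)) y →
      Good r (dprod D (mlist (Mel H g0 (FreeGroup.lift x)) y.1 (y :: l)))) :
    GoodFam r (fun o : Option S => o.elim g x) := by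
  intro w hw
  generalize hΦdef : FreeGroup.lift (fun o : Option S => o.elim g x) = Φ
  have hΦ : ∀ γ, Φ (FreeGroup.map some γ) = (FreeGroup.lift x) γ := by
    intro γ
    have : Φ.comp (FreeGroup.map some) = FreeGroup.lift x := by
      apply FreeGroup.ext_hom
      intro y
      simp [← hΦdef]
    rw [← this]; rfl
  have hX : Φ (FreeGroup.of none) = g0 * H * D * H⁻¹ := by
    rw [← hΦdef, ← hg]
    simp
  obtain ⟨c, h | h⟩ := conj_form' w
  · obtain ⟨γ, hγ⟩ := h
    have hγ1 : γ ≠ 1 := by
      rintro rfl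
      apply hw
      rw [hγ, map_one]; group
    rw [hγ, map_mul, map_mul, hΦ, map_inv]
    exact (hx γ hγ1).conj _
  · obtain ⟨y, l, hyl, hch, hcyc⟩ := h
    rw [hyl, map_mul, map_mul, map_inv]
    apply Good.conj
    have hev := eval_gword H g0 D (FreeGroup.lift x) Φ hΦ hX y.1 (y :: l)
    have hnxt : nxt y.1 (y :: l) = y.1 := rfl
    rw [hnxt] at hev
    have hev' : Φ (gword (y :: l)) = ((if y.1 then g0 else 1) * H) *
        dprod D (mlist (Mel H g0 (FreeGroup.lift x)) y.1 (y :: l)) *
        ((if y.1 then g0 else 1) * H)⁻¹ := by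
      rw [← hev]; group
    rw [hev']
    apply Good.conj
    exact hnice y l hch hcyc

theorem col_eq (hb : Function.Injective fun x : Option Bool × Fin r => b x.1 x.2)
    (g0 H D : GL I F) (hH : Std b (H : Matrix I I F)) (t : F) (ht0 : t ≠ 0)
    (hD1 : t • (D : Matrix I I F) = Dm (fun σ => b (some σ)) t true) (i : Fin r) (k' : I) :
    ((g0 * H * D * H⁻¹ : GL I F) : Matrix I I F) k' (b none i) =
      (g0 : Matrix I I F) k' (b none i) := by
  have hHs : (H : Matrix I I F) *ᵥ Pi.single (b none i) 1 = Pi.single (b none i) 1 := by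
    funext k'
    rw [Matrix.mulVec_single_one]
    change (H : Matrix I I F) k' (b none i) = _
    rw [hH i k', Pi.single_apply, Matrix.one_apply]
  have hHs' : ((H⁻¹ : GL I F) : Matrix I I F) *ᵥ Pi.single (b none i) 1 =
      Pi.single (b none i) 1 := by
    conv_lhs => rw [← hHs]
    rw [Matrix.mulVec_mulVec, ← Units.val_mul, inv_mul_cancel, Units.val_one, Matrix.one_mulVec]
  have hDs : (D : Matrix I I F) *ᵥ Pi.single (b none i) 1 = Pi.single (b none i) 1 := by
    have h1 : (Dm (fun σ => b (some σ)) t true) *ᵥ Pi.single (b none i) 1 =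
        t • Pi.single (b none i) (1 : F) := by
      have hnr : ∀ σ, b none i ∉ Set.range (b (some σ)) := by
        rintro σ ⟨a, ha⟩
        have := hb (a₁ := (some σ, a)) (a₂ := (none, i)) ha
        simp at this
      rw [Dm, Matrix.diagonal_mulVec_single, dd, if_neg (hnr _), if_neg (hnr _), mul_one]
      funext k'
      rw [Pi.smul_apply, Pi.single_apply, Pi.single_apply]
      split_ifs <;> simp
    rw [← hD1, Matrix.smul_mulVec] at h1
    have h2 := congrArg (fun v => t⁻¹ • v) h1
    simpa only [smul_smul, inv_mul_cancel₀ ht0, one_smul] using h2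
  have h1 : ((g0 * H * D * H⁻¹ : GL I F) : Matrix I I F) *ᵥ Pi.single (b none i) 1 =
      (g0 : Matrix I I F) *ᵥ Pi.single (b none i) 1 := by
    rw [Units.val_mul, Units.val_mul, Units.val_mul, ← Matrix.mulVec_mulVec, hHs',
      ← Matrix.mulVec_mulVec, hDs, ← Matrix.mulVec_mulVec, hHs]
  have h2 := congrFun h1 k'
  rw [Matrix.mulVec_single_one, Matrix.mulVec_single_one] at h2
  exact h2

theorem ext_step (hF : Big F)
    (hb : Function.Injective fun x : Option Bool × Fin r => b x.1 x.2)
    (hI : 3 * r ≤ Fintype.card I) {S : Type u} (hS : #S < #F) (x : S → GL I F)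
    (hx : GoodFam r x) (β : Fin r → (I → F)) (hβ : LinearIndependent F β) :
    ∃ g : GL I F, (∀ i k, (g : Matrix I I F) k (b none i) = β i k) ∧
      GoodFam r (fun o : Option S => o.elim g x) := by
  classical
  have := hF.infinite
  have hnone : Function.Injective (b none) := fun i j h => by
    have := hb (a₁ := (none, i)) (a₂ := (none, j)) h
    simpa using this
  have he : Function.Injective fun y : Bool × Fin r => b (some y.1) y.2 := by
    rintro ⟨σ, i⟩ ⟨τ, j⟩ h
    have := hb (a₁ := (some σ, i)) (a₂ := (some τ, j)) h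
    simpa using this
  obtain ⟨g0, hg0⟩ := exists_cols (b none) hnone β hβ
  -- the small subfield
  let s : Set F := Set.range (fun p : S × (I × I) => (x p.1 : Matrix I I F) p.2.1 p.2.2) ∪
    Set.range (fun p : I × I => (g0 : Matrix I I F) p.1 p.2)
  have hinf : ℵ₀ ≤ #F := aleph0_le_mk F
  have hs : #s < #F := by
    refine (mk_union_le _ _).trans_lt (add_lt_of_lt hinf ?_ ?_)
    · refine mk_range_le.trans_lt ?_
      rw [mk_prod, lift_uzero]
      refine mul_lt_of_lt hinf hS ?_
      refine lt_of_lt_of_le ?_ hinf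
      rw [lift_lt_aleph0]
      exact mk_lt_aleph0
    · exact (Set.finite_range _).lt_aleph0.trans_le hinf
  let k : Subfield F := Subfield.closure s
  obtain ⟨ξ, hξ⟩ := hF.exists_algInd (I × I) s hs
  have hs1 : #(s ∪ Set.range ξ : Set F) < #F :=
    (mk_union_le _ _).trans_lt (add_lt_of_lt hinf hs
      ((Set.finite_range _).lt_aleph0.trans_le hinf))
  obtain ⟨t, ht⟩ := hF _ hs1
  let k1 : Subfield F := Subfield.closure (s ∪ Set.range ξ)
  have hkk1 : k ≤ k1 := Subfield.closure_mono Set.subset_union_left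
  obtain ⟨O, hO, htO⟩ := exists_val k1 t ht
  have ht0 : t ≠ 0 := by
    rintro rfl
    exact ht (isAlgebraic_zero)
  -- descend the data
  have hxk : ∀ y : S, ∃ g' : GL I k, Matrix.GeneralLinearGroup.map k.subtype g' = x y := fun y =>
    exists_lift k (x y) fun i j => Subfield.subset_closure (Or.inl ⟨(y, (i, j)), rfl⟩)
  choose xk hxk using hxk
  obtain ⟨gk, hgk⟩ := exists_lift k g0 fun i j => Subfield.subset_closure (Or.inr ⟨(i, j), rfl⟩)
  let φk : FreeGroup S →* GL I k := FreeGroup.lift xk
  have hφk : (Matrix.GeneralLinearGroup.map k.subtype).comp φk = FreeGroup.lift x := by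
    apply FreeGroup.ext_hom
    intro y
    simp [φk, hxk]
  have hdetH := generic_det b k ξ hξ
  obtain ⟨H, hH⟩ := (Matrix.isUnit_iff_isUnit_det _).2 hdetH
  have hHmem : ∀ i j, (H : Matrix I I F) i j ∈ k1 := by
    intro i j
    rw [hH, genH, Matrix.of_apply]
    split_ifs
    · rw [Matrix.one_apply]
      split_ifs
      · exact one_mem _
      · exact zero_mem _
    · exact Subfield.subset_closure (Or.inr ⟨(i, j), rfl⟩)
  obtain ⟨H1, hH1⟩ := exists_lift k1 H hHmem
  let ι : k →+* k1 := Subfield.inclusion hkk1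
  let g1 : GL I k1 := Matrix.GeneralLinearGroup.map ι gk
  let φ1 : FreeGroup S →* GL I k1 := (Matrix.GeneralLinearGroup.map ι).comp φk
  let j1 : k1 →+* O :=
    { toFun := fun y => ⟨y.1, hO y.1 y.2⟩
      map_one' := rfl
      map_mul' := fun _ _ => rfl
      map_zero' := rfl
      map_add' := fun _ _ => rfl }
  have hmapmap : ∀ m : GL I k, Matrix.GeneralLinearGroup.map k1.subtype
      (Matrix.GeneralLinearGroup.map ι m) = Matrix.GeneralLinearGroup.map k.subtype m := by
    intro m
    have hc : k1.subtype.comp ι = k.subtype := RingHom.ext fun y => rfl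
    rw [← hc, Matrix.GeneralLinearGroup.map_comp]
    rfl
  have hφ1 : (Matrix.GeneralLinearGroup.map k1.subtype).comp φ1 =
      (Matrix.GeneralLinearGroup.map k.subtype).comp φk := by
    ext1 γ
    exact hmapmap _
  -- transitions over k1
  have hTr : ∀ (σ : Bool) (γ : FreeGroup S) (τ : Bool), (σ = τ ∨ γ ≠ 1) →
      ∀ y : Bool × GL I k1, y.1 = τ →
        Tr (fun σ => b (some σ)) (σ, Mel H1 g1 φ1 σ γ τ) y := by
    intro σ γ τ hor y hy
    apply Tr_of_map _ k1.subtype
    have hT := TT b hb hI k ξ hξ H hH gk φk (fun γ hγ => by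
      have := hx γ hγ
      rw [← hφk] at this
      exact this) σ γ τ hor
    have e1 : Matrix.GeneralLinearGroup.map k1.subtype (Mel H1 g1 φ1 σ γ τ) =
        Mel H (Matrix.GeneralLinearGroup.map k.subtype gk)
          ((Matrix.GeneralLinearGroup.map k.subtype).comp φk) σ γ τ := by
      rw [map_Mel, hH1, hφ1, hmapmap]
    simp only [Tr]
    rw [e1, hy]
    exact hT
  obtain ⟨D, hD1, hD2⟩ := exists_D (fun σ => b (some σ)) he t ht0
  refine ⟨g0 * H * D * H⁻¹, fun i k' => ?_, ?_⟩
  · rw [col_eq b hb g0 H D (by rw [hH]; exact genH_std b ξ) t ht0 hD1, hg0]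
  · apply words_good x hx g0 H D _ rfl
    intro y l hch hcyc
    exact good_of_chain O (fun σ => b (some σ)) he hI k1 j1 (fun _ => rfl) t ht0 htO D hD1 hD2
      (Mel H1 g1 φ1) (Mel H g0 (FreeGroup.lift x)) (fun σ γ τ => by
        rw [map_Mel, hH1, hφ1, hmapmap, hgk, hφk]) hTr y l hch hcyc

end main

end Pool.Agent.TH137.PG
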