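import Pool.Agent.TH137.PG.Step

/-!
# Transfinite recursion
-/

namespace Pool.Agent.TH137.PG

open Matrix Module Cardinal

universe u

variable {F : Type u} [Field F] {I : Type} [Fintype I] [DecidableEq I]

/-- evaluation of a word only depends on the letters in it -/
theorem lift_map_eq {S S' : Type*} {G : Type*} [Group G] (x : S → G) (x' : S' → G) (f : S → S')
    (L : List (S × Bool)) (h : ∀ s ∈ L, x' (f s.1) = x s.1) :
    FreeGroup.lift x' (FreeGroup.map f (FreeGroup.mk L)) = FreeGroup.lift x (FreeGroup.mk L) := by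
  rw [FreeGroup.map.mk, FreeGroup.lift_mk, FreeGroup.lift_mk, List.map_map]
  congr 1
  apply List.map_congr_left
  intro s hs
  simp only [Function.comp_apply, h s hs]

theorem map_map_eq {S S' : Type*} (f : S → S') (g : S' → S)
    (L : List (S × Bool)) (h : ∀ s ∈ L, g (f s.1) = s.1) :
    FreeGroup.map g (FreeGroup.map f (FreeGroup.mk L)) = FreeGroup.mk L := by
  rw [FreeGroup.map.mk, FreeGroup.map.mk, List.map_map]
  congr 1
  conv_rhs => rw [← List.map_id L]
  apply List.map_congr_left
  intro s hs
  simp only [Function.comp_apply, h s hs, id]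

theorem limit {r : ℕ} {T : Type u} [LinearOrder T] (S0 : Type u) (x0 : S0 → GL I F)
    (hx0 : GoodFam r x0) (x : T → GL I F) {S' : Type u} (f : S' → T) (hf : Function.Injective f)
    (h : ∀ s : S', GoodFam r (fun o : Option (S0 ⊕ {t : T // t < f s}) =>
      o.elim (x (f s)) (Sum.elim x0 (fun t => x t.1)))) :
    GoodFam r (Sum.elim x0 (fun s : S' => x (f s))) := by
  classical
  intro w hw
  obtain ⟨L, rfl⟩ : ∃ L, w = FreeGroup.mk L := ⟨w.toWord, FreeGroup.mk_toWord.symm⟩
  -- letters of the second kind
  let A : Finset S' := (L.filterMap fun p => p.1.getRight?).toFinset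
  have hA : ∀ s b, (Sum.inr s, b) ∈ L → s ∈ A := by
    intro s b hs
    simp only [A, List.mem_toFinset, List.mem_filterMap]
    exact ⟨_, hs, rfl⟩
  rcases A.eq_empty_or_nonempty with hAe | hAn
  · -- only letters of the first kind
    by_cases hS0 : Nonempty S0
    · obtain ⟨a0⟩ := hS0
      let φ : S0 ⊕ S' → S0 := Sum.elim id (fun _ => a0)
      have hleft : ∀ s ∈ L, ∃ a, s.1 = Sum.inl a := by
        rintro ⟨s | s, b⟩ hs
        · exact ⟨s, rfl⟩
        · have := hA s b hs
          rw [hAe] at this
          exact absurd this (Finset.notMem_empty _)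
      have h1 := lift_map_eq (Sum.elim x0 (fun s : S' => x (f s))) x0 φ L (by
        intro s hs
        obtain ⟨a, ha⟩ := hleft s hs
        rw [ha]; rfl)
      have h2 := map_map_eq φ (Sum.inl : S0 → S0 ⊕ S') L (by
        intro s hs
        obtain ⟨a, ha⟩ := hleft s hs
        rw [ha]; rfl)
      rw [← h1]
      apply hx0
      intro h3
      rw [h3, map_one] at h2
      exact hw h2.symm
    · exfalso
      have hL : L = [] := by
        rw [List.eq_nil_iff_forall_not_mem]
        rintro ⟨s | s, b⟩ hs
        · exact hS0 ⟨s⟩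
        · have := hA s b hs
          rw [hAe] at this
          exact absurd this (Finset.notMem_empty _)
      apply hw
      rw [hL]
      exact FreeGroup.one_eq_mk.symm
  · obtain ⟨m, hm, hmax⟩ := A.exists_max_image f hAn
    let φ : S0 ⊕ S' → Option (S0 ⊕ {t : T // t < f m}) := Sum.elim (fun a => some (Sum.inl a))
      (fun s => if hs : f s < f m then some (Sum.inr ⟨f s, hs⟩) else none)
    let ψ : Option (S0 ⊕ {t : T // t < f m}) → S0 ⊕ S' := fun o => match o with
      | none => Sum.inr m
      | some (Sum.inl a) => Sum.inl a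
      | some (Sum.inr t) => if ht : ∃ s, f s = t.1 then Sum.inr ht.choose else Sum.inr m
    have hletter : ∀ s b, (Sum.inr s, b) ∈ L → ¬ f s < f m → s = m := by
      intro s b hs hn
      have h1 := hmax s (hA s b hs)
      exact hf (le_antisymm h1 (not_lt.1 hn))
    have h1 := lift_map_eq (Sum.elim x0 (fun s : S' => x (f s)))
      (fun o : Option (S0 ⊕ {t : T // t < f m}) =>
        o.elim (x (f m)) (Sum.elim x0 (fun t => x t.1))) φ L (by
      rintro ⟨s | s, b⟩ hs
      · rfl
      · simp only [φ, Sum.elim_inr]
        by_cases hlt : f s < f m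
        · rw [dif_pos hlt]; rfl
        · rw [dif_neg hlt, hletter s b hs hlt]; rfl)
    have h2 := map_map_eq φ ψ L (by
      rintro ⟨s | s, b⟩ hs
      · rfl
      · simp only [φ, Sum.elim_inr]
        by_cases hlt : f s < f m
        · rw [dif_pos hlt]
          simp only [ψ]
          have hex : ∃ s', f s' = f s := ⟨s, rfl⟩
          rw [dif_pos hex]
          exact congrArg Sum.inr (hf hex.choose_spec)
        · rw [dif_neg hlt, hletter s b hs hlt])
    rw [← h1]
    apply h m
    intro h3
    rw [h3, map_one] at h2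
    exact hw h2.symm

/-- the property required of the `m`-th matrix -/
def Prop1 {r : ℕ} (b : Option Bool → Fin r → I) {T : Type u} [LinearOrder T] {S0 : Type u}
    (x0 : S0 → GL I F) (β : T → Fin r → (I → F)) (m : T) (f : {t : T // t < m} → GL I F)
    (g : GL I F) : Prop :=
  (∀ i k, (g : Matrix I I F) k (b none i) = β m i k) ∧
    GoodFam r (fun o : Option (S0 ⊕ {t : T // t < m}) => o.elim g (Sum.elim x0 f))

theorem exists_family (hF : Big F) {r : ℕ} (b : Option Bool → Fin r → I)
    (hb : Function.Injective fun x : Option Bool × Fin r => b x.1 x.2)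
    (hI : 3 * r ≤ Fintype.card I) (S0 : Type u) (hS0 : #S0 < #F) (x0 : S0 → GL I F)
    (hx0 : GoodFam r x0) (T : Type u) (hT : #T ≤ #F) (β : T → Fin r → (I → F))
    (hβ : ∀ m, LinearIndependent F (β m)) :
    ∃ x : T → GL I F, (∀ m i k, (x m : Matrix I I F) k (b none i) = β m i k) ∧
      GoodFam r (Sum.elim x0 x) := by
  classical
  have hinf := hF.infinite
  obtain ⟨hlin, hwf, hord⟩ := exists_ord_eq_type_lt T
  let wf : WellFounded (fun a b : T => a < b) := hwf.wf
  let x : T → GL I F := wf.fix fun m ih =>
    if h : ∃ g, Prop1 b x0 β m (fun t => ih t.1 t.2) g then h.choose else 1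
  have hxeq : ∀ m, x m = if h : ∃ g, Prop1 b x0 β m (fun t => x t.1) g then h.choose else 1 :=
    fun m => wf.fix_eq _ m
  have key : ∀ m, Prop1 b x0 β m (fun t => x t.1) (x m) := by
    intro m
    induction m using wf.induction with
    | _ m ih =>
      have hgood : GoodFam r (Sum.elim x0 (fun s : {t : T // t < m} => x s.1)) :=
        limit S0 x0 hx0 x (Subtype.val : {t : T // t < m} → T) Subtype.val_injective
          (fun s => (ih s.1 s.2).2)
      have hcard : #(S0 ⊕ {t : T // t < m}) < #F := by
        rw [mk_sum, lift_id, lift_id]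
        exact add_lt_of_lt (aleph0_le_mk F) hS0 ((mk_Iio_lt m hord).trans_le hT)
      have hex := ext_step b hF hb hI hcard _ hgood (β m) (hβ m)
      have hex' : ∃ g, Prop1 b x0 β m (fun t => x t.1) g := hex
      rw [hxeq m, dif_pos hex']
      exact hex'.choose_spec
  refine ⟨x, fun m => (key m).1, ?_⟩
  exact limit S0 x0 hx0 x (id : T → T) Function.injective_id (fun s => (key s).2)

end Pool.Agent.TH137.PG
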